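import Pool.Agent.TH680.SE.Step

/-! The majority separator. -/

set_option autoImplicit false

namespace Pool.Agent.TH680.HP

open Pool.Agent.NPC Pool.Agent.H620R2.Gauge Pool.Agent.H591R3.PHG MeasureTheory ProbabilityTheory
  Finset Pool.Agent.W900.IE Pool.Agent.W900.PS Pool.Agent.H622R2 Pool.Agent.W900
open Pool.Agent.TH680.SE (wit wit_dep setT setT_wit setT_self card_bad)

/-- small certificates -/
def CertP (c : ℕ) (φ : Oracle → Prop) : Prop :=
  ∀ A, φ A → ∃ S : Finset (List Bool), S.card ≤ c ∧ ∀ A', (∀ z ∈ S, A' z = A z) → φ A'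

/-- the oracles for which the pair is not disjoint -/
def Vio (B D : Oracle → List Bool → Prop) (Λ : Set (List Bool)) : Set Oracle :=
  {A | ∃ y ∈ Λ, B A y ∧ D A y}

/-- `T` is a separator -/
def Sp (B D : Oracle → List Bool → Prop) (Λ : Set (List Bool)) (A T : Oracle) : Prop :=
  ∀ y ∈ Λ, (B A y → T y = true) ∧ (D A y → T y = false)

/-- the good oracles -/
def Good (B D : Oracle → List Bool → Prop) (Λ Φ : Set (List Bool)) (S₀ : Oracle)
    (U W : Finset (List Bool)) (g : List Bool → List Bool → Finset (List Bool)) (t : Oracle)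
    (acc : Oracle → Oracle → List Bool → Prop) : Set Oracle :=
  {A | A ∉ Vio B D Λ ∧ (∀ y ∈ Φ, (B A y → S₀ y = true) ∧ (D A y → S₀ y = false)) ∧
    ∀ u ∈ U, ∀ T, (∀ y ∈ Φ, T y = S₀ y) → Sp B D Λ A T →
      (acc A T u ↔ ∃ w ∈ W, A ∈ wit (g u w) t)}

theorem setT_off {G S : Finset (List Bool)} {t A : Oracle} (h : Disjoint S G) :
    ∀ z ∈ S, setT G t A z = A z := fun z hz => by
  unfold setT
  rw [if_neg (Finset.disjoint_left.1 h hz)]

section

variable {B D : Oracle → List Bool → Prop} {Λ Φ : Set (List Bool)} {S₀ t A : Oracle}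
  {U W : Finset (List Bool)} {g : List Bool → List Bool → Finset (List Bool)}
  {acc : Oracle → Oracle → List Bool → Prop} {c m : ℕ} {u : List Bool}

open Classical in
/-- **Few conflicts.** -/
theorem minority (hsep : ∀ w ∈ W, ∀ w' ∈ W, w ≠ w' → Disjoint (g u w) (g u w'))
    (hB : ∀ y ∈ Λ, CertP c (fun A => B A y)) (hD : ∀ y ∈ Λ, CertP c (fun A => D A y))
    (hZ : 64 * m ^ 2 * ((W.powersetCard 2).filter
      (fun s => setT (s.biUnion (g u)) t A ∈ Vio B D Λ)).card ≤ W.card ^ 2)
    (hW : 32 * m ^ 2 * (2 * c + 1) ≤ W.card) {y : List Bool} (hy : y ∈ Λ) :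
    4 * m * min (W.filter (fun w => B (setT (g u w) t A) y)).card
      (W.filter (fun w => D (setT (g u w) t A) y)).card ≤ W.card := by
  set WB := W.filter (fun w => B (setT (g u w) t A) y) with hWB
  set WD := W.filter (fun w => D (setT (g u w) t A) y) with hWD
  set Z := (W.powersetCard 2).filter (fun s => setT (s.biUnion (g u)) t A ∈ Vio B D Λ) with hZs
  have hcB : ∀ w, ∃ S : Finset (List Bool), S.card ≤ c ∧ (w ∈ WB → ∀ A',
      (∀ z ∈ S, A' z = setT (g u w) t A z) → B A' y) := by
    intro w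
    by_cases hw : w ∈ WB
    · obtain ⟨S, h1, h2⟩ := hB y hy _ (Finset.mem_filter.1 hw).2
      exact ⟨S, h1, fun _ => h2⟩
    · exact ⟨∅, by simp, fun h => absurd h hw⟩
  have hcD : ∀ w, ∃ S : Finset (List Bool), S.card ≤ c ∧ (w ∈ WD → ∀ A',
      (∀ z ∈ S, A' z = setT (g u w) t A z) → D A' y) := by
    intro w
    by_cases hw : w ∈ WD
    · obtain ⟨S, h1, h2⟩ := hD y hy _ (Finset.mem_filter.1 hw).2
      exact ⟨S, h1, fun _ => h2⟩
    · exact ⟨∅, by simp, fun h => absurd h hw⟩
  choose SB hSB hSB' using hcB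
  choose SD hSD hSD' using hcD
  -- the four kinds of pairs
  set P1 := (WB ×ˢ WD).filter (fun q => q.1 = q.2) with hP1
  set P2 := (WB ×ˢ WD).filter (fun q => ¬ Disjoint (SB q.1) (g u q.2)) with hP2
  set P3 := (WB ×ˢ WD).filter (fun q => ¬ Disjoint (SD q.2) (g u q.1)) with hP3
  set P4 := (WB ×ˢ WD).filter (fun q => q.1 ≠ q.2 ∧ ({q.1, q.2} : Finset (List Bool)) ∈ Z)
    with hP4
  have hBW : WB ⊆ W := Finset.filter_subset _ _
  have hDW : WD ⊆ W := Finset.filter_subset _ _
  have hcov : WB ×ˢ WD ⊆ ((P1 ∪ P2) ∪ P3) ∪ P4 := by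
    rintro ⟨w, w'⟩ hq
    have hq' := Finset.mem_product.1 hq
    by_cases h1 : w = w'
    · exact Finset.mem_union_left _ (Finset.mem_union_left _ (Finset.mem_union_left _
        (Finset.mem_filter.2 ⟨hq, h1⟩)))
    by_cases h2 : Disjoint (SB w) (g u w')
    swap
    · exact Finset.mem_union_left _ (Finset.mem_union_left _ (Finset.mem_union_right _
        (Finset.mem_filter.2 ⟨hq, h2⟩)))
    by_cases h3 : Disjoint (SD w') (g u w)
    swap
    · exact Finset.mem_union_left _ (Finset.mem_union_right _ (Finset.mem_filter.2 ⟨hq, h3⟩))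
    refine Finset.mem_union_right _ (Finset.mem_filter.2 ⟨hq, h1, ?_⟩)
    rw [hZs, Finset.mem_filter, Finset.mem_powersetCard]
    refine ⟨⟨?_, Finset.card_pair h1⟩, ?_⟩
    · intro x hx
      rw [Finset.mem_insert, Finset.mem_singleton] at hx
      rcases hx with rfl | rfl
      · exact hBW hq'.1
      · exact hDW hq'.2
    · rw [Finset.biUnion_insert, Finset.singleton_biUnion]
      refine ⟨y, hy, hSB' w hq'.1 _ fun z hz => ?_, hSD' w' hq'.2 _ fun z hz => ?_⟩
      · have h4 := Finset.disjoint_left.1 h2 hz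
        unfold setT
        simp only [Finset.mem_union, h4, or_false]
      · have h4 := Finset.disjoint_left.1 h3 hz
        unfold setT
        simp only [Finset.mem_union, h4, false_or]
  have c1 : P1.card ≤ W.card := by
    refine Finset.card_le_card_of_injOn (fun q => q.1) ?_ ?_
    · intro q hq
      exact hBW (Finset.mem_product.1 (Finset.mem_filter.1 hq).1).1
    · intro q hq q' hq' h
      have h1 := (Finset.mem_filter.1 hq).2
      have h2 := (Finset.mem_filter.1 hq').2
      simp only at h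
      exact Prod.ext h (by rw [← h1, ← h2, h])
  have c2 : P2.card ≤ W.card * c := by
    have h1 : P2 ⊆ (WB.sigma (fun w => W.filter (fun w' => ¬ Disjoint (SB w) (g u w')))).image
        (fun x => (x.1, x.2)) := by
      rintro ⟨w, w'⟩ hq
      obtain ⟨h2, h3⟩ := Finset.mem_filter.1 hq
      have h4 := Finset.mem_product.1 h2
      rw [Finset.mem_image]
      exact ⟨⟨w, w'⟩, Finset.mem_sigma.2 ⟨h4.1, Finset.mem_filter.2 ⟨hDW h4.2, h3⟩⟩, rfl⟩
    refine (Finset.card_le_card h1).trans (Finset.card_image_le.trans ?_)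
    rw [Finset.card_sigma]
    refine (Finset.sum_le_card_nsmul _ _ c fun w _ => (card_bad hsep).trans (hSB w)).trans ?_
    rw [smul_eq_mul]
    exact Nat.mul_le_mul_right _ (Finset.card_le_card hBW)
  have c3 : P3.card ≤ W.card * c := by
    have h1 : P3 ⊆ (WD.sigma (fun w' => W.filter (fun w => ¬ Disjoint (SD w') (g u w)))).image
        (fun x => (x.2, x.1)) := by
      rintro ⟨w, w'⟩ hq
      obtain ⟨h2, h3⟩ := Finset.mem_filter.1 hq
      have h4 := Finset.mem_product.1 h2
      rw [Finset.mem_image]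
      exact ⟨⟨w', w⟩, Finset.mem_sigma.2 ⟨h4.2, Finset.mem_filter.2 ⟨hBW h4.1, h3⟩⟩, rfl⟩
    refine (Finset.card_le_card h1).trans (Finset.card_image_le.trans ?_)
    rw [Finset.card_sigma]
    refine (Finset.sum_le_card_nsmul _ _ c fun w _ => (card_bad hsep).trans (hSD w)).trans ?_
    rw [smul_eq_mul]
    exact Nat.mul_le_mul_right _ (Finset.card_le_card hDW)
  have c4 : P4.card ≤ 2 * Z.card := by
    refine (Finset.card_le_mul_card_image (f := fun q : List Bool × List Bool =>
      ({q.1, q.2} : Finset (List Bool))) P4 2 ?_).trans (Nat.mul_le_mul_left 2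
        (Finset.card_le_card ?_))
    · intro a ha
      rw [Finset.mem_image] at ha
      obtain ⟨⟨w, w'⟩, _, rfl⟩ := ha
      have h1 : (P4.filter (fun q => ({q.1, q.2} : Finset (List Bool)) = {w, w'})) ⊆
          {(w, w'), (w', w)} := by
        rintro ⟨v, v'⟩ hq
        obtain ⟨h2, h3⟩ := Finset.mem_filter.1 hq
        have h4 : v ≠ v' := (Finset.mem_filter.1 h2).2.1
        simp only at h3
        have e1 : v ∈ ({w, w'} : Finset (List Bool)) := h3 ▸ Finset.mem_insert_self _ _
        have e2 : v' ∈ ({w, w'} : Finset (List Bool)) := h3 ▸ Finset.mem_insert_of_mem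
          (Finset.mem_singleton_self _)
        rw [Finset.mem_insert, Finset.mem_singleton] at e1 e2
        rw [Finset.mem_insert, Finset.mem_singleton, Prod.mk.injEq, Prod.mk.injEq]
        rcases e1 with rfl | rfl
        · rcases e2 with rfl | rfl
          · exact absurd rfl h4
          · exact Or.inl ⟨rfl, rfl⟩
        · rcases e2 with rfl | rfl
          · exact Or.inr ⟨rfl, rfl⟩
          · exact absurd rfl h4
      exact (Finset.card_le_card h1).trans Finset.card_le_two
    · intro a ha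
      rw [Finset.mem_image] at ha
      obtain ⟨q, hq, rfl⟩ := ha
      exact (Finset.mem_filter.1 hq).2.2
  have hprod : WB.card * WD.card ≤ 2 * Z.card + W.card * (2 * c + 1) := by
    rw [← Finset.card_product]
    have h1 := (Finset.card_le_card hcov).trans ((Finset.card_union_le _ _).trans
      (Nat.add_le_add_right ((Finset.card_union_le _ _).trans
        (Nat.add_le_add_right (Finset.card_union_le _ _) _)) _))
    have h2 : W.card * (2 * c + 1) = W.card * c + W.card * c + W.card := by ring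
    omega
  -- arithmetic
  set k := min WB.card WD.card with hk
  have h1 : k * k ≤ WB.card * WD.card := Nat.mul_le_mul (min_le_left _ _) (min_le_right _ _)
  have h2 : (4 * m * k) ^ 2 ≤ W.card ^ 2 := by
    have h3 : 2 * (4 * m * k) ^ 2 ≤ 64 * m ^ 2 * Z.card + 32 * m ^ 2 * (2 * c + 1) * W.card := by
      calc 2 * (4 * m * k) ^ 2 = 32 * m ^ 2 * (k * k) := by ring
        _ ≤ 32 * m ^ 2 * (2 * Z.card + W.card * (2 * c + 1)) :=
          Nat.mul_le_mul_left _ (h1.trans hprod)
        _ = _ := by ring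
    have h4 : 32 * m ^ 2 * (2 * c + 1) * W.card ≤ W.card * W.card := Nat.mul_le_mul_right _ hW
    have h5 : W.card ^ 2 = W.card * W.card := by ring
    omega
  exact le_of_sq_le_sq' h2
where
  le_of_sq_le_sq' {a b : ℕ} (h : a ^ 2 ≤ b ^ 2) : a ≤ b := by
    by_contra hcon
    push Not at hcon
    have := Nat.pow_lt_pow_left hcon (two_ne_zero)
    omega

open Classical in
/-- **Most of the neighbours are bad.** -/
theorem comb (hu : u ∈ U)
    (hsep : ∀ w ∈ W, ∀ w' ∈ W, w ≠ w' → Disjoint (g u w) (g u w'))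
    (hB : ∀ y ∈ Λ, CertP c (fun A => B A y)) (hD : ∀ y ∈ Λ, CertP c (fun A => D A y))
    (hacc : ∀ A T : Oracle, ∃ SA ST : Finset (List Bool), SA.card ≤ m ∧ ST.card ≤ m ∧
      ∀ A' T' : Oracle, (∀ z ∈ SA, A' z = A z) → (∀ y ∈ ST, T' y = T y) →
        (acc A' T' u ↔ acc A T u)) (hm : 0 < m)
    (hA : A ∈ Good B D Λ Φ S₀ U W g t acc) (hfree : ∀ w ∈ W, A ∉ wit (g u w) t)
    (hZ : 64 * m ^ 2 * ((W.powersetCard 2).filter
      (fun s => setT (s.biUnion (g u)) t A ∈ Vio B D Λ)).card ≤ W.card ^ 2)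
    (hW : 32 * m ^ 2 * (2 * c + 1) ≤ W.card) (hW2 : 4 * m * (1 + c) ≤ W.card) :
    2 * (W.filter (fun w => setT (g u w) t A ∈ Good B D Λ Φ S₀ U W g t acc)).card ≤ W.card := by
  obtain ⟨hA1, hA2, hA3⟩ := hA
  set T₀ : Oracle := fun y => if y ∈ Φ then S₀ y else
    if B A y then true else if D A y then false else
      decide ((W.filter (fun w => D (setT (g u w) t A) y)).card ≤
        (W.filter (fun w => B (setT (g u w) t A) y)).card) with hT₀
  have hT1 : ∀ y ∈ Φ, T₀ y = S₀ y := fun y hy => by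
    rw [hT₀]
    exact if_pos hy
  have hT2 : Sp B D Λ A T₀ := by
    intro y hy
    by_cases hΦ : y ∈ Φ
    · rw [hT1 y hΦ]
      exact hA2 y hΦ
    · simp only [hT₀, if_neg hΦ]
      refine ⟨fun h => if_pos h, fun h => ?_⟩
      have h1 : ¬ B A y := fun h1 => hA1 ⟨y, hy, h1, h⟩
      rw [if_neg h1, if_pos h]
  have hrej : ¬ acc A T₀ u := by
    rw [hA3 u hu T₀ hT1 hT2]
    push Not
    exact hfree
  obtain ⟨SA, ST, hSA, hST, hrun⟩ := hacc A T₀
  -- the conflicts
  set Gd := W.filter (fun w => setT (g u w) t A ∈ Good B D Λ Φ S₀ U W g t acc) with hGd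
  set Cf : List Bool → Finset (List Bool) := fun y => Gd.filter (fun w =>
    (B (setT (g u w) t A) y ∧ T₀ y = false) ∨ (D (setT (g u w) t A) y ∧ T₀ y = true)) with hCf
  have hGW : Gd ⊆ W := Finset.filter_subset _ _
  have hGg : ∀ w ∈ Gd, setT (g u w) t A ∈ Good B D Λ Φ S₀ U W g t acc := fun w hw =>
    (Finset.mem_filter.1 hw).2
  have hcf : ∀ y ∈ Λ, 4 * m * (Cf y).card ≤ 4 * m * c + W.card := by
    intro y hy
    by_cases hΦ : y ∈ Φ
    · have h1 : Cf y = ∅ := by
        refine Finset.eq_empty_of_forall_notMem fun w hw => ?_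
        obtain ⟨h2, h3⟩ := Finset.mem_filter.1 hw
        have h4 := (hGg w h2).2.1 y hΦ
        rw [hT1 y hΦ] at h3
        rcases h3 with ⟨h5, h6⟩ | ⟨h5, h6⟩
        · rw [h4.1 h5] at h6
          exact absurd h6 (by simp)
        · rw [h4.2 h5] at h6
          exact absurd h6 (by simp)
      rw [h1]
      simp
    by_cases hBy : B A y
    · have hT : T₀ y = true := by
        simp only [hT₀, if_neg hΦ, if_pos hBy]
      obtain ⟨S, hS, hS'⟩ := hB y hy A hBy
      have h1 : Cf y ⊆ W.filter (fun w => ¬ Disjoint S (g u w)) := by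
        intro w hw
        obtain ⟨h2, h3⟩ := Finset.mem_filter.1 hw
        refine Finset.mem_filter.2 ⟨hGW h2, fun hd => ?_⟩
        rcases h3 with ⟨_, h6⟩ | ⟨h5, _⟩
        · rw [hT] at h6
          exact absurd h6 (by simp)
        · exact (hGg w h2).1 ⟨y, hy, hS' _ (setT_off hd), h5⟩
      have h2 := (Finset.card_le_card h1).trans ((card_bad hsep).trans hS)
      have h3 := Nat.mul_le_mul_left (4 * m) h2
      omega
    by_cases hDy : D A y
    · have hT : T₀ y = false := by
        simp only [hT₀, if_neg hΦ, if_neg hBy, if_pos hDy]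
      obtain ⟨S, hS, hS'⟩ := hD y hy A hDy
      have h1 : Cf y ⊆ W.filter (fun w => ¬ Disjoint S (g u w)) := by
        intro w hw
        obtain ⟨h2, h3⟩ := Finset.mem_filter.1 hw
        refine Finset.mem_filter.2 ⟨hGW h2, fun hd => ?_⟩
        rcases h3 with ⟨h5, _⟩ | ⟨_, h6⟩
        · exact (hGg w h2).1 ⟨y, hy, h5, hS' _ (setT_off hd)⟩
        · rw [hT] at h6
          exact absurd h6 (by simp)
      have h2 := (Finset.card_le_card h1).trans ((card_bad hsep).trans hS)
      have h3 := Nat.mul_le_mul_left (4 * m) h2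
      omega
    · have hmin := minority (c := c) (m := m) (t := t) (A := A) hsep hB hD hZ hW hy
      have hTy : T₀ y = decide ((W.filter (fun w => D (setT (g u w) t A) y)).card ≤
          (W.filter (fun w => B (setT (g u w) t A) y)).card) := by
        simp only [hT₀, if_neg hΦ, if_neg hBy, if_neg hDy]
      have h2 : (Cf y).card ≤ min (W.filter (fun w => B (setT (g u w) t A) y)).card
          (W.filter (fun w => D (setT (g u w) t A) y)).card := by
        by_cases hle : (W.filter (fun w => D (setT (g u w) t A) y)).card ≤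
            (W.filter (fun w => B (setT (g u w) t A) y)).card
        · rw [min_eq_right hle]
          refine Finset.card_le_card fun w hw => ?_
          obtain ⟨h3, h4⟩ := Finset.mem_filter.1 hw
          rw [hTy, decide_eq_true hle] at h4
          refine Finset.mem_filter.2 ⟨hGW h3, ?_⟩
          rcases h4 with ⟨_, h5⟩ | ⟨h5, _⟩
          · exact absurd h5 (by simp)
          · exact h5
        · rw [min_eq_left (by omega)]
          refine Finset.card_le_card fun w hw => ?_
          obtain ⟨h3, h4⟩ := Finset.mem_filter.1 hw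
          rw [hTy, decide_eq_false hle] at h4
          refine Finset.mem_filter.2 ⟨hGW h3, ?_⟩
          rcases h4 with ⟨h5, _⟩ | ⟨_, h5⟩
          · exact h5
          · exact absurd h5 (by simp)
      have h3 := Nat.mul_le_mul_left (4 * m) h2
      omega
  -- the good neighbours
  have hcov : Gd ⊆ (W.filter (fun w => ¬ Disjoint SA (g u w))) ∪
      (ST.filter (fun y => y ∈ Λ)).biUnion Cf := by
    intro w hw
    by_contra hcon
    rw [Finset.mem_union, not_or] at hcon
    obtain ⟨h1, h2⟩ := hcon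
    have h3 : Disjoint SA (g u w) := by
      by_contra h
      exact h1 (Finset.mem_filter.2 ⟨hGW hw, h⟩)
    have h4 : ∀ y ∈ ST, y ∈ Λ → (B (setT (g u w) t A) y → T₀ y = true) ∧
        (D (setT (g u w) t A) y → T₀ y = false) := by
      intro y hy hyΛ
      have h5 : w ∉ Cf y := fun h => h2 (Finset.mem_biUnion.2
        ⟨y, Finset.mem_filter.2 ⟨hy, hyΛ⟩, h⟩)
      refine ⟨fun h6 => ?_, fun h6 => ?_⟩
      · by_contra h7
        exact h5 (Finset.mem_filter.2 ⟨hw, Or.inl ⟨h6, by simpa using h7⟩⟩)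
      · by_contra h7
        exact h5 (Finset.mem_filter.2 ⟨hw, Or.inr ⟨h6, by simpa using h7⟩⟩)
    obtain ⟨g1, g2, g3⟩ := hGg w hw
    set Tw : Oracle := fun y => if y ∈ ST then T₀ y else if y ∈ Φ then S₀ y else
      decide (B (setT (g u w) t A) y) with hTw
    have e1 : ∀ y ∈ Φ, Tw y = S₀ y := by
      intro y hy
      by_cases h : y ∈ ST
      · simp only [hTw, if_pos h]
        exact hT1 y hy
      · simp only [hTw, if_neg h, if_pos hy]
    have e2 : Sp B D Λ (setT (g u w) t A) Tw := by
      intro y hy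
      by_cases h : y ∈ ST
      · simp only [hTw, if_pos h]
        exact h4 y h hy
      · by_cases h' : y ∈ Φ
        · simp only [hTw, if_neg h, if_pos h']
          exact g2 y h'
        · simp only [hTw, if_neg h, if_neg h']
          exact ⟨fun h5 => decide_eq_true h5, fun h5 => decide_eq_false fun h6 =>
            g1 ⟨y, hy, h6, h5⟩⟩
    have e3 : acc (setT (g u w) t A) Tw u :=
      (g3 u hu Tw e1 e2).2 ⟨w, hGW hw, setT_wit _ _ _⟩
    exact hrej ((hrun _ _ (setT_off h3) fun y hy => by simp only [hTw, if_pos hy]).1 e3)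
  have h1 : Gd.card ≤ m + ∑ y ∈ ST.filter (fun y => y ∈ Λ), (Cf y).card := by
    refine (Finset.card_le_card hcov).trans ((Finset.card_union_le _ _).trans ?_)
    exact Nat.add_le_add ((card_bad hsep).trans hSA) Finset.card_biUnion_le
  have h2 : 4 * m * ∑ y ∈ ST.filter (fun y => y ∈ Λ), (Cf y).card ≤
      m * (4 * m * c + W.card) := by
    rw [Finset.mul_sum]
    refine (Finset.sum_le_card_nsmul _ _ (4 * m * c + W.card) fun y hy =>
      hcf y (Finset.mem_filter.1 hy).2).trans ?_
    rw [smul_eq_mul]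
    exact Nat.mul_le_mul_right _ ((Finset.card_le_card (Finset.filter_subset _ _)).trans hST)
  have h3 : m * (4 * Gd.card) ≤ m * (2 * W.card) := by
    calc m * (4 * Gd.card) = 4 * m * Gd.card := by ring
      _ ≤ 4 * m * (m + ∑ y ∈ ST.filter (fun y => y ∈ Λ), (Cf y).card) :=
        Nat.mul_le_mul_left _ h1
      _ = m * (4 * m) + 4 * m * ∑ y ∈ ST.filter (fun y => y ∈ Λ), (Cf y).card := by ring
      _ ≤ m * (4 * m) + m * (4 * m * c + W.card) := Nat.add_le_add_left h2 _
      _ = m * (4 * m * (1 + c) + W.card) := by ring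
      _ ≤ m * (2 * W.card) := Nat.mul_le_mul_left _ (by omega)
  have h4 := Nat.le_of_mul_le_mul_left h3 hm
  omega

end

end Pool.Agent.TH680.HP
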