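import Pool.Agent.TH680.SE.Step

/-! Planting witnesses: the exact form. -/

set_option autoImplicit false

namespace Pool.Agent.TH680.HP

open Pool.Agent.NPC Pool.Agent.H620R2.Gauge Pool.Agent.H591R3.PHG MeasureTheory ProbabilityTheory
  Finset Pool.Agent.W900.IE Pool.Agent.W900.PS Pool.Agent.H622R2 Pool.Agent.W900
open Pool.Agent.TH680.SE (wit wit_dep setT setT_wit setT_self real_match)

variable (p : List Bool → unitInterval)

/-- exactly the blocks of `s` are witnesses -/
def ex (W : Finset (List Bool)) (g : List Bool → Finset (List Bool)) (t : Oracle)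
    (s : Finset (List Bool)) : Set Oracle := {A | ∀ w ∈ W, (A ∈ wit (g w) t ↔ w ∈ s)}

/-- planting the blocks of `s` into an oracle without other witnesses gives an element of `X` -/
def pl (W : Finset (List Bool)) (g : List Bool → Finset (List Bool)) (t : Oracle)
    (X : Set Oracle) (s : Finset (List Bool)) : Set Oracle :=
  {A | setT (s.biUnion g) t A ∈ X ∧ ∀ w ∈ W, w ∉ s → A ∉ wit (g w) t}

theorem pl_dep {W : Finset (List Bool)} {g : List Bool → Finset (List Bool)} {t : Oracle}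
    (hsep : ∀ w ∈ W, ∀ w' ∈ W, w ≠ w' → Disjoint (g w) (g w')) {X : Set Oracle}
    {F : Finset (List Bool)} (hX : DepO F X) {s : Finset (List Bool)} (hs : s ⊆ W) :
    DepO ((F ∪ W.biUnion g) \ s.biUnion g) (pl W g t X s) := by
  classical
  intro A A' h hA
  refine ⟨hX _ _ (fun z hz => ?_) hA.1, fun w hw hws hcon => hA.2 w hw hws ?_⟩
  · unfold setT
    split_ifs with hzg
    · rfl
    · exact h z (Finset.mem_sdiff.2 ⟨Finset.mem_union_left _ hz, hzg⟩)
  · refine wit_dep (g w) t A' A (fun z hz => (h z ?_).symm) hcon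
    refine Finset.mem_sdiff.2 ⟨Finset.mem_union_right _ (Finset.mem_biUnion.2 ⟨w, hw, hz⟩), ?_⟩
    rw [Finset.mem_biUnion]
    rintro ⟨w', hw', hz'⟩
    have hne : w ≠ w' := fun he => hws (he ▸ hw')
    exact Finset.disjoint_left.1 (hsep w hw w' (hs hw') hne) hz hz'

theorem wit_biUnion {s : Finset (List Bool)} {g : List Bool → Finset (List Bool)} {t A : Oracle}
    (h : A ∈ wit (s.biUnion g) t) {w : List Bool} (hw : w ∈ s) : A ∈ wit (g w) t :=
  fun z hz => h z (Finset.mem_biUnion.2 ⟨w, hw, hz⟩)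

/-- **The exact form.** -/
theorem exact {C X : Set Oracle} {D F : Finset (List Bool)} (hC : DepO D C) (hX : DepO F X)
    {W : Finset (List Bool)} {g : List Bool → Finset (List Bool)} {t : Oracle} {π : ℝ}
    (hsep : ∀ w ∈ W, ∀ w' ∈ W, w ≠ w' → Disjoint (g w) (g w'))
    (hD : ∀ w ∈ W, Disjoint D (g w)) (hπ : ∀ w ∈ W, ∏ z ∈ g w, ber (p z) (t z) = π) {k : ℕ}
    {S : Finset (Finset (List Bool))} (hS : ∀ s ∈ S, s ⊆ W ∧ s.card = k) :
    (∑ s ∈ S, (indep p).real (C ∩ pl W g t X s)) * π ^ k ≤ (indep p).real (C ∩ X) := by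
  classical
  have h1 : ∀ s ∈ S, (indep p).real (C ∩ pl W g t X s) * π ^ k =
      (indep p).real ((C ∩ pl W g t X s) ∩ wit (s.biUnion g) t) := by
    intro s hs
    obtain ⟨h2, h3⟩ := hS s hs
    have hd : DepO ((D ∪ (F ∪ W.biUnion g)) \ s.biUnion g) (C ∩ pl W g t X s) := by
      intro A A' h hA
      refine ⟨hC A A' (fun z hz => h z ?_) hA.1, pl_dep hsep hX h2 A A' (fun z hz => h z ?_) hA.2⟩
      · refine Finset.mem_sdiff.2 ⟨Finset.mem_union_left _ hz, ?_⟩
        rw [Finset.mem_biUnion]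
        rintro ⟨w, hw, hz'⟩
        exact Finset.disjoint_left.1 (hD w (h2 hw)) hz hz'
      · rw [Finset.mem_sdiff] at hz ⊢
        exact ⟨Finset.mem_union_right _ hz.1, hz.2⟩
    rw [real_match p hd t (s.biUnion g) Finset.sdiff_disjoint, Finset.prod_biUnion (by
      intro w hw w' hw' hne
      exact hsep w (h2 hw) w' (h2 hw') hne),
      Finset.prod_congr rfl (g := fun _ => π) (fun w hw => hπ w (h2 hw)), Finset.prod_const, h3]
  rw [Finset.sum_mul, Finset.sum_congr rfl h1]
  have h2 : ∀ s ∈ S, (C ∩ pl W g t X s) ∩ wit (s.biUnion g) t ⊆ (C ∩ X) ∩ ex W g t s := by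
    intro s hs
    rintro A ⟨⟨h3, h4, h5⟩, h6⟩
    rw [setT_self h6] at h4
    refine ⟨⟨h3, h4⟩, fun w hw => ⟨fun h7 => ?_, fun h7 => wit_biUnion h6 h7⟩⟩
    by_contra h8
    exact h5 w hw h8 h7
  have hexm : ∀ s, MeasurableSet (ex W g t s) := by
    intro s
    have : DepO (W.biUnion g) (ex W g t s) := by
      intro A A' h hA w hw
      have h4 : ∀ z ∈ g w, A z = A' z := fun z hz => h z (Finset.mem_biUnion.2 ⟨w, hw, hz⟩)
      rw [← hA w hw]
      exact ⟨wit_dep _ _ A' A fun z hz => (h4 z hz).symm, wit_dep _ _ A A' h4⟩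
    exact this.measurable
  have h3 : (∑ s ∈ S, (indep p).real ((C ∩ X) ∩ ex W g t s)) ≤ (indep p).real (C ∩ X) := by
    rw [← measureReal_biUnion_finset]
    · exact measureReal_mono (Set.iUnion₂_subset fun s _ => Set.inter_subset_left)
    · intro s hs s' hs' hne
      rw [Function.onFun, Set.disjoint_left]
      rintro A ⟨_, h4⟩ ⟨_, h5⟩
      apply hne
      ext w
      constructor
      · intro hw
        exact (h5 w ((hS s hs).1 hw)).1 ((h4 w ((hS s hs).1 hw)).2 hw)
      · intro hw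
        exact (h4 w ((hS s' hs').1 hw)).1 ((h5 w ((hS s' hs').1 hw)).2 hw)
    · intro s _
      exact (hC.measurable.inter hX.measurable).inter (hexm s)
  exact (Finset.sum_le_sum fun s hs => measureReal_mono (h2 s hs)).trans h3

end Pool.Agent.TH680.HP
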