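import Pool.Agent.TH680.HP.Loc
import Pool.Agent.TH680.ND.Mach

/-! The choice of the parameters, and almost every oracle. -/

set_option autoImplicit false

namespace Pool.Agent.TH680.HP

open Pool.Agent.NPC Pool.Agent.H620R2.Gauge Pool.Agent.H591R3.PHG MeasureTheory ProbabilityTheory
  Finset Pool.Agent.W900.IE Pool.Agent.W900.PS Pool.Agent.H622R2 Pool.Agent.W900
open Pool.Agent.TH680.OD (join sfx rr length_sfx disj_blk len_blk rr_nonneg)
open Pool.Agent.TH680.SE (wit wit_dep setT card_strs KK nn nn_le le_nn KK_le mu_le le_mu prod_ber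
  small_of_two sqrt_big KK_spec)
open Pool.Agent.TH680.OR (out_loc out_dep inst2 inst2_mem inst2_le fnd poly_le_sqrt)
open Pool.Agent.TH680.ND (lt_two_pow_bits two_pow_bits_le)

/-- the number of the bits of the names of the cones -/
def hh (P : Polynomial ℕ) (N : ℕ) : ℕ := (P.eval N).bits.length

/-- there is enough room -/
theorem room (q : ℕ → unitInterval) (P : Polynomial ℕ) : ∀ᶠ N : ℕ in Filter.atTop,
    ((2 * P.eval N + 1 : ℕ) : ℝ) ≤ 2 ^ N * rr q N →
      hh P N + nn q N ≤ N ∧ KK q N ≤ 2 ^ (N - (hh P N + nn q N)) := by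
  filter_upwards [poly_le_sqrt (2 * P + 1), Filter.eventually_ge_atTop 64] with N h1 h2 h3
  have hr0 := rr_nonneg q N
  have h4 : 2 ^ hh P N ≤ 2 * P.eval N + 1 := two_pow_bits_le _
  have h5 := sqrt_big h2
  have h6 := Nat.sqrt_le N
  have h7 : 8 * Nat.sqrt N ≤ Nat.sqrt N * Nat.sqrt N := Nat.mul_le_mul_right _ h5
  rcases Nat.lt_or_ge (KK q N) 2 with hK | hK
  · have hK1 : KK q N = 1 := by
      have := (KK_spec q N).1
      omega
    have h8 := mu_le q N
    rw [hK1, pow_one] at h8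
    have h9 : hh P N + nn q N ≤ N := by
      by_contra hcon
      push Not at hcon
      have h10 : (2 : ℝ) ^ (N + 1) ≤ 2 ^ (hh P N + nn q N) :=
        pow_le_pow_right₀ (by norm_num) hcon
      have h11 : (2 : ℝ) ^ (N + 1) * rr q N ≤ 2 ^ (hh P N + nn q N) * rr q N :=
        mul_le_mul_of_nonneg_right h10 hr0
      have h12 : (2 : ℝ) ^ hh P N ≤ 2 ^ N * rr q N := by
        refine le_trans ?_ h3
        exact_mod_cast h4
      rw [pow_succ, pow_add] at h11
      have h13 : (0 : ℝ) < 2 ^ hh P N := by positivity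
      nlinarith
    rw [hK1]
    exact ⟨h9, Nat.one_le_two_pow⟩
  · have h8 := small_of_two q N hK
    have h9 : hh P N ≤ Nat.sqrt N := by
      have h10 : 2 ^ hh P N ≤ 2 ^ (Nat.sqrt N / 2) := by
        refine h4.trans ?_
        simpa using h1
      have h11 := (Nat.pow_le_pow_iff_right (by norm_num : 1 < 2)).1 h10
      omega
    have h10 := KK_le q N
    refine ⟨by omega, ?_⟩
    have h11 : Nat.sqrt N + 1 ≤ 2 ^ (Nat.sqrt N + 1) := Nat.lt_two_pow_self.le
    have h12 : 2 ^ (Nat.sqrt N + 1) ≤ 2 ^ (N - (hh P N + nn q N)) :=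
      Nat.pow_le_pow_right (by norm_num) (by omega)
    omega

section

variable (M₁ M₂ M : Alg) (p₁ p₂ : Polynomial ℕ) (Q : Oracle) (b : Bool) (t₀ : ℕ)
  (l₀ : List (List Bool))

/-- the bound for the certificates -/
noncomputable def cP : Polynomial ℕ :=
  let LP : Polynomial ℕ := Polynomial.C t₀ + (IE.qb M).comp (7 * Polynomial.X + 7)
  M₁.p.comp (2 * p₁.comp LP + 1 + LP) + M₂.p.comp (2 * p₂.comp LP + 1 + LP)

theorem eval_cP (N : ℕ) : (cP M₁ M₂ M p₁ p₂ t₀).eval N =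
    M₁.p.eval (il p₁ (lq M t₀ N)) + M₂.p.eval (il p₂ (lq M t₀ N)) := by
  unfold cP il lq
  simp [Polynomial.eval_comp]

/-- the bound for the questions of the reduction -/
noncomputable def mP : Polynomial ℕ := M.p.comp (7 * Polynomial.X + 7) + 1

theorem eval_mP (N : ℕ) : (mP M).eval N = M.p.eval (7 * N + 7) + 1 := by
  unfold mP
  simp [Polynomial.eval_comp]

/-- the bound for the number of the cones -/
noncomputable def jP : Polynomial ℕ :=
  2 ^ 15 * cP M₁ M₂ M p₁ p₂ t₀ * mP M ^ 2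

/-- the good oracles, for the chosen parameters -/
noncomputable def G1 (q : ℕ → unitInterval) (N : ℕ) : Set Oracle :=
  GG M₁ M₂ M p₁ p₂ Q b t₀ l₀ (hh (jP M₁ M₂ M p₁ p₂ t₀) N) (nn q N) N (KK q N)

/-- **The key inequality.** -/
theorem key (q : ℕ → unitInterval) : ∀ᶠ N : ℕ in Filter.atTop,
    ((2 * (jP M₁ M₂ M p₁ p₂ t₀).eval N + 1 : ℕ) : ℝ) ≤ 2 ^ N * rr q N →
      decide ((1 / 2 : ℝ) < q N) = b →
      ∀ (C : Set Oracle) (E : Finset (List Bool)), DepO E C → (∀ z ∈ E, z.length < N) →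
        (indep (DT.pq q)).real C ≤
          32 * (indep (DT.pq q)).real (C \ G1 M₁ M₂ M p₁ p₂ Q b t₀ l₀ q N) := by
  filter_upwards [room q (jP M₁ M₂ M p₁ p₂ t₀), Filter.eventually_ge_atTop 64,
    poly_le_sqrt (32 * mP M ^ 2 * (2 * cP M₁ M₂ M p₁ p₂ t₀ + 1)),
    poly_le_sqrt (4 * mP M * (1 + cP M₁ M₂ M p₁ p₂ t₀))] with N h1 h2 h3 h4
  intro h5 hb C E hC hE
  obtain ⟨h6, h7⟩ := h1 h5
  set h := hh (jP M₁ M₂ M p₁ p₂ t₀) N with hh'
  set n := nn q N with hn
  set K := KK q N with hK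
  have hKN : K ≤ N + 1 := (KK_le q N).trans (Nat.succ_le_succ (Nat.sqrt_le_self N))
  have hF : ∀ z : List Bool, z.length ≤ RB M₁ M₂ M p₁ p₂ t₀ N →
      z ∈ (Finset.range (RB M₁ M₂ M p₁ p₂ t₀ N + 1)).biUnion DT.strs := fun z hz =>
    Finset.mem_biUnion.2 ⟨z.length, Finset.mem_range.2 (by omega), DT.mem_strs.2 rfl⟩
  have hcard : ((DT.strs n).card : ℝ) = 2 ^ n := by
    rw [card_strs]
    push_cast
    rfl
  have hsq : 2 ^ (Nat.sqrt N / 2) ≤ 2 ^ n :=
    Nat.pow_le_pow_right (by norm_num) ((Nat.div_le_self _ _).trans (le_nn q N))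
  refine level (DT.pq q) (c := (cP M₁ M₂ M p₁ p₂ t₀).eval N) (m := (mP M).eval N)
    (π := rr q N ^ K) hC (dep_GG h6 hKN _ hF) (dep_vio _ hF) (blk_sep h n N K) ?_ ?_
    (pow_nonneg (rr_nonneg q N) _) ?_ ?_ ?_ ?_ ?_ ?_ ?_ ?_ ?_ ?_
  · intro u hu w hw
    rw [Finset.disjoint_left]
    intro z hz hz'
    have h8 := hE z hz
    have h9 := len_blk (by
      rw [List.length_append, DT.mem_strs.1 hu, DT.mem_strs.1 hw]; exact h6) hz'
    omega
  · intro u hu w hw
    exact prod_ber q hb (by rw [List.length_append, DT.mem_strs.1 hu, DT.mem_strs.1 hw]) h6 h7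
  · rw [hcard]
    have h8 := le_mu q h2
    refine le_trans ?_ h8
    refine le_min ?_ le_rfl
    have h9 : (1 : ℝ) ≤ ((2 * (jP M₁ M₂ M p₁ p₂ t₀).eval N + 1 : ℕ) : ℝ) := by
      exact_mod_cast Nat.le_add_left 1 _
    linarith
  · rw [hcard]
    exact mu_le q N
  · intro y hy
    have h8 := cert_mem M₁ p₁ Q (ℓ := lq M t₀ N) hy
    intro A hA
    obtain ⟨S, hS, hS'⟩ := h8 A hA
    exact ⟨S, hS.trans (by rw [eval_cP]; omega), hS'⟩
  · intro y hy
    have h8 := cert_mem M₂ p₂ Q (ℓ := lq M t₀ N) hy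
    intro A hA
    obtain ⟨S, hS, hS'⟩ := h8 A hA
    exact ⟨S, hS.trans (by rw [eval_cP]; omega), hS'⟩
  · intro u hu A T
    obtain ⟨SA, ST, h8, h9, h10⟩ := run_loc M Q A T (inst2 false u (h + n) N K)
    have h11 := eval_mono M.p (inst2_le false hu (Nat.le_add_right h n) h6 hKN)
    refine ⟨SA, ST, ?_, ?_, fun A' T' h12 h13 => ?_⟩
    · rw [eval_mP]
      omega
    · rw [eval_mP]
      omega
    · unfold acc
      rw [h10 A' T' h12 h13]
  · rw [eval_mP]
    omega
  · rw [card_strs]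
    refine le_trans ?_ (h3.trans hsq)
    simp
  · rw [card_strs]
    refine le_trans ?_ (h4.trans hsq)
    simp
  · rw [← Finset.card_pos, card_strs]
    positivity
  · rw [card_strs]
    have h8 : (jP M₁ M₂ M p₁ p₂ t₀).eval N < 2 ^ h := lt_two_pow_bits _
    refine le_trans (le_of_eq ?_) h8.le
    unfold jP
    simp

end

/-- **Almost every oracle.** -/
theorem ae_GG {q : ℕ → unitInterval} {b : Bool} (hq : IE.Many (DT.pq q) (fun _ => b))
    (M₁ M₂ M : Alg) (p₁ p₂ : Polynomial ℕ) (Q : Oracle) (t₀ : ℕ) (l₀ : List (List Bool)) :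
    ∀ᵐ A ∂(indep (DT.pq q)), ∃ N, hh (jP M₁ M₂ M p₁ p₂ t₀) N + nn q N ≤ N ∧
      A ∉ G1 M₁ M₂ M p₁ p₂ Q b t₀ l₀ q N := by
  classical
  set R : ℕ → Set Oracle := fun N => {A | hh (jP M₁ M₂ M p₁ p₂ t₀) N + nn q N ≤ N →
    A ∈ G1 M₁ M₂ M p₁ p₂ Q b t₀ l₀ q N} with hR
  set F : ℕ → Finset (List Bool) := fun N =>
    (Finset.range (RB M₁ M₂ M p₁ p₂ t₀ N + 1)).biUnion DT.strs with hF
  have hRd : ∀ N, DepO (F N) (R N) := by
    intro N A A' h hA hN
    have hKN : KK q N ≤ N + 1 := (KK_le q N).trans (Nat.succ_le_succ (Nat.sqrt_le_self N))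
    exact dep_GG hN hKN (F N) (fun z hz => Finset.mem_biUnion.2 ⟨z.length,
      Finset.mem_range.2 (by omega), DT.mem_strs.2 rfl⟩) A A' h (hA hN)
  set C : ℕ → Set Oracle := fun m => {A | ∀ N < m, A ∈ R N} with hC
  set FC : ℕ → Finset (List Bool) := fun m => (Finset.range m).biUnion F with hFC
  have hCd : ∀ m, DepO (FC m) (C m) := fun m A A' h hA N hN =>
    hRd N A A' (fun z hz => h z (Finset.mem_biUnion.2 ⟨N, Finset.mem_range.2 hN, hz⟩)) (hA N hN)
  have hanti : Antitone C := fun m m' h A hA N hN => hA N (by omega)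
  set I : Set Oracle := ⋂ m, C m with hI
  have h0 : indep (DT.pq q) I = 0 := by
    by_contra hne
    have hpos : 0 < (indep (DT.pq q)).real I := by
      rw [Measure.real, ENNReal.toReal_pos_iff]
      exact ⟨pos_iff_ne_zero.2 hne, measure_lt_top _ _⟩
    have htend : Filter.Tendsto (fun m => (indep (DT.pq q)).real (C m)) Filter.atTop
        (nhds ((indep (DT.pq q)).real I)) := by
      have h1 := tendsto_measure_iInter_atTop (μ := indep (DT.pq q))
        (fun m => (hCd m).measurable.nullMeasurableSet) hanti ⟨0, measure_ne_top _ _⟩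
      exact (ENNReal.tendsto_toReal (measure_ne_top _ _)).comp h1
    obtain ⟨m, hm⟩ := (htend.eventually (gt_mem_nhds
      (show (indep (DT.pq q)).real I < (1 + 1 / 64) * (indep (DT.pq q)).real I by
        linarith))).exists
    obtain ⟨c, hc⟩ := W900.IE.poly_le (2 * jP M₁ M₂ M p₁ p₂ t₀ + 1) 0
    have hkey := key M₁ M₂ M p₁ p₂ Q b t₀ l₀ q
    have hev := room q (jP M₁ M₂ M p₁ p₂ t₀)
    obtain ⟨N, ⟨h1, h2⟩, h3, h4, h5, h6⟩ := ((hq (c + 1)).and_eventually (hkey.and
      (hev.and ((Filter.eventually_ge_atTop (max m ((FC m).sup List.length + 1))).and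
        (Filter.eventually_ge_atTop (c + 2)))))).exists
    have h7 : W900.IE.dev (DT.pq q) N = 2 ^ N * rr q N := by
      unfold W900.IE.dev DT.pq rr
      have h8 : ∀ v : Fin N → Bool, min (q (List.ofFn v).length : ℝ)
          (1 - q (List.ofFn v).length) = min (q N : ℝ) (1 - q N) := fun v => by
        rw [List.length_ofFn]
      rw [Finset.sum_congr rfl fun v _ => h8 v, Finset.sum_const, nsmul_eq_mul,
        Finset.card_univ]
      simp
    rw [h7] at h1
    have h8 : ((2 * (jP M₁ M₂ M p₁ p₂ t₀).eval N + 1 : ℕ) : ℝ) ≤ 2 ^ N * rr q N := by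
      refine le_trans ?_ h1
      have h9 := hc N
      have h10 : N ^ c + c ≤ N ^ (c + 1) := by
        have h11 : 1 ≤ N ^ c := Nat.one_le_pow _ _ (by omega)
        calc N ^ c + c ≤ N ^ c + c * N ^ c := by nlinarith
          _ = (c + 1) * N ^ c := by ring
          _ ≤ N * N ^ c := Nat.mul_le_mul_right _ (by omega)
          _ = N ^ (c + 1) := by ring
      have h12 : 2 * (jP M₁ M₂ M p₁ p₂ t₀).eval N + 1 ≤ N ^ (c + 1) := by
        have h13 : (2 * jP M₁ M₂ M p₁ p₂ t₀ + 1).eval N =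
            2 * (jP M₁ M₂ M p₁ p₂ t₀).eval N + 1 := by simp
        rw [h13] at h9
        omega
      exact_mod_cast h12
    have hbN : decide ((1 / 2 : ℝ) < q N) = b := by
      have h9 := h2 (List.replicate N true) (by simp)
      rw [DT.modeB_pq, List.length_replicate] at h9
      exact h9.symm
    have h9 := h3 h8 hbN (C m) (FC m) (hCd m) (fun z hz => by
      have := Finset.le_sup (f := List.length) hz
      have := le_trans (le_max_right _ _) h5
      omega)
    have hroom := (h4 h8).1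
    have h10 : I ⊆ C m ∩ G1 M₁ M₂ M p₁ p₂ Q b t₀ l₀ q N := by
      intro A hA
      rw [hI, Set.mem_iInter] at hA
      exact ⟨hA m, hA (N + 1) N (by omega) hroom⟩
    have hGm : MeasurableSet (G1 M₁ M₂ M p₁ p₂ Q b t₀ l₀ q N) := by
      have hKN : KK q N ≤ N + 1 := (KK_le q N).trans (Nat.succ_le_succ (Nat.sqrt_le_self N))
      exact (dep_GG hroom hKN (F N) (fun z hz => Finset.mem_biUnion.2 ⟨z.length,
        Finset.mem_range.2 (by omega), DT.mem_strs.2 rfl⟩)).measurable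
    have h11 : (indep (DT.pq q)).real (C m) =
        (indep (DT.pq q)).real (C m ∩ G1 M₁ M₂ M p₁ p₂ Q b t₀ l₀ q N) +
        (indep (DT.pq q)).real (C m \ G1 M₁ M₂ M p₁ p₂ Q b t₀ l₀ q N) :=
      (measureReal_inter_add_sdiff hGm).symm
    have h12 := measureReal_mono (μ := indep (DT.pq q)) h10
    linarith
  have h1 : ∀ᵐ A ∂(indep (DT.pq q)), A ∉ I := measure_eq_zero_iff_ae_notMem.1 h0
  filter_upwards [h1] with A hA
  rw [hI, Set.mem_iInter] at hA
  push Not at hA
  obtain ⟨m, hm⟩ := hA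
  rw [hC, Set.mem_ofPred_eq] at hm
  push Not at hm
  obtain ⟨N, _, h2⟩ := hm
  rw [hR, Set.mem_ofPred_eq] at h2
  push Not at h2
  exact ⟨N, h2⟩

end Pool.Agent.TH680.HP
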