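import Pool.Agent.TH680.HP.Exact
import Pool.Agent.TH680.HP.Comb

/-! One length: the pairs of rare witnesses and the separators. -/

set_option autoImplicit false

namespace Pool.Agent.TH680.HP

open Pool.Agent.NPC Pool.Agent.H620R2.Gauge Pool.Agent.H591R3.PHG MeasureTheory ProbabilityTheory
  Finset Pool.Agent.W900.IE Pool.Agent.W900.PS Pool.Agent.H622R2 Pool.Agent.W900
open Pool.Agent.TH680.SE (wit wit_dep setT setT_wit setT_self card_bad real_match count_real
  int_ind intble_ind)

/-- few of the sets cover the points of `C` -/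
theorem count_le {Ω ι : Type} [MeasurableSpace Ω] (μ : Measure Ω) [IsProbabilityMeasure μ]
    (W : Finset ι) (H : ι → Set Ω) (hH : ∀ i ∈ W, MeasurableSet (H i))
    {C : Set Ω} (hC : MeasurableSet C) (k : ℝ)
    (h : ∀ ω, ∑ i ∈ W, Set.indicator (H i) (fun _ => (1 : ℝ)) ω ≤
      k * Set.indicator C (fun _ => (1 : ℝ)) ω) :
    ∑ i ∈ W, μ.real (H i) ≤ k * μ.real C := by
  have h1 : ∫ ω, ∑ i ∈ W, Set.indicator (H i) (fun _ => (1 : ℝ)) ω ∂μ ≤
      ∫ ω, k * Set.indicator C (fun _ => (1 : ℝ)) ω ∂μ :=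
    integral_mono (integrable_finsetSum _ fun i hi => intble_ind μ (hH i hi))
      ((intble_ind μ hC).const_mul k) fun ω => h ω
  rw [integral_const_mul, int_ind μ hC, integral_finsetSum _ fun i hi => intble_ind μ (hH i hi)]
    at h1
  refine le_trans (le_of_eq ?_) h1
  exact Finset.sum_congr rfl fun i hi => (int_ind μ (hH i hi)).symm

/-- some change of the region `G` gives an oracle outside of `Y` -/
def piv (G : Finset (List Bool)) (Y : Set Oracle) : Set Oracle :=
  {A | ∃ A' : Oracle, (∀ z, z ∉ G → A' z = A z) ∧ A' ∉ Y}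

theorem piv_dep {G F : Finset (List Bool)} {Y : Set Oracle} (hY : DepO F Y) :
    DepO F (piv G Y) := by
  classical
  rintro A A₂ h ⟨A', h1, h2⟩
  refine ⟨fun z => if z ∈ G then A' z else A₂ z, fun z hz => if_neg hz, fun h3 => h2 ?_⟩
  refine hY _ _ (fun z hz => ?_) h3
  split_ifs with hg
  · rfl
  · rw [h1 z hg]
    exact (h z hz).symm

theorem dep_compl {F : Finset (List Bool)} {X : Set Oracle} (h : DepO F X) : DepO F Xᶜ :=
  fun A A' h1 h2 h3 => h2 (h A' A (fun z hz => (h1 z hz).symm) h3)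

variable (p : List Bool → unitInterval)

variable {B D : Oracle → List Bool → Prop} {Λ Φ : Set (List Bool)} {S₀ t : Oracle}
  {U W : Finset (List Bool)} {g : List Bool → List Bool → Finset (List Bool)}
  {acc : Oracle → Oracle → List Bool → Prop} {c m : ℕ}

theorem vio_cert (hB : ∀ y ∈ Λ, CertP c (fun A => B A y)) (hD : ∀ y ∈ Λ, CertP c (fun A => D A y)) :
    CertP (2 * c) (fun A => A ∈ Vio B D Λ) := by
  classical
  rintro A ⟨y, hy, h1, h2⟩
  obtain ⟨S1, h3, h4⟩ := hB y hy A h1
  obtain ⟨S2, h5, h6⟩ := hD y hy A h2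
  refine ⟨S1 ∪ S2, (Finset.card_union_le _ _).trans (by omega), fun A' h => ⟨y, hy, h4 A' ?_,
    h6 A' ?_⟩⟩
  · exact fun z hz => h z (Finset.mem_union_left _ hz)
  · exact fun z hz => h z (Finset.mem_union_right _ hz)

/-- **One length.** -/
theorem level {C : Set Oracle} {E F F' : Finset (List Bool)} (hC : DepO E C)
    (hgood : DepO F (Good B D Λ Φ S₀ U W g t acc)) (hvio : DepO F' (Vio B D Λ)) {π : ℝ}
    (hsep : ∀ u ∈ U, ∀ w ∈ W, ∀ u' ∈ U, ∀ w' ∈ W, (u, w) ≠ (u', w') →
      Disjoint (g u w) (g u' w'))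
    (hE : ∀ u ∈ U, ∀ w ∈ W, Disjoint E (g u w))
    (hπ : ∀ u ∈ U, ∀ w ∈ W, ∏ z ∈ g u w, ber (p z) (t z) = π) (hπ0 : 0 ≤ π)
    (hμ1 : 1 / 4 ≤ W.card * π) (hμ2 : W.card * π ≤ 1 / 2)
    (hB : ∀ y ∈ Λ, CertP c (fun A => B A y)) (hD : ∀ y ∈ Λ, CertP c (fun A => D A y))
    (hacc : ∀ u ∈ U, ∀ A T : Oracle, ∃ SA ST : Finset (List Bool), SA.card ≤ m ∧ ST.card ≤ m ∧
      ∀ A' T' : Oracle, (∀ z ∈ SA, A' z = A z) → (∀ y ∈ ST, T' y = T y) →
        (acc A' T' u ↔ acc A T u)) (hm : 0 < m)
    (hW : 32 * m ^ 2 * (2 * c + 1) ≤ W.card) (hW2 : 4 * m * (1 + c) ≤ W.card)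
    (hU0 : U.Nonempty) (hJ : 2 ^ 15 * c * m ^ 2 ≤ U.card) :
    (indep p).real C ≤ 32 * (indep p).real (C \ Good B D Λ Φ S₀ U W g t acc) := by
  classical
  set Y := Vio B D Λ with hY
  set Gd := Good B D Λ Φ S₀ U W g t acc with hGd
  have hCm := hC.measurable
  have hGm := hgood.measurable
  have hYm := hvio.measurable
  have hC0 : (0 : ℝ) ≤ (indep p).real C := measureReal_nonneg
  -- the pivotal cones
  have hpivm : ∀ u, MeasurableSet (C ∩ (Y ∩ piv (W.biUnion (g u)) Y)) := fun u =>
    hCm.inter (hYm.inter (piv_dep (G := W.biUnion (g u)) hvio).measurable)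
  have h1 : ∑ u ∈ U, (indep p).real (C ∩ (Y ∩ piv (W.biUnion (g u)) Y)) ≤
      (2 * c : ℝ) * (indep p).real C := by
    refine count_le (indep p) U _ (fun u _ => hpivm u) hCm _ fun A => ?_
    by_cases hA : A ∈ C ∩ Y
    · rw [Set.indicator_of_mem hA.1, mul_one]
      obtain ⟨S, hS, hS'⟩ := vio_cert hB hD A hA.2
      have h2 : ∀ u ∈ U, Set.indicator (C ∩ (Y ∩ piv (W.biUnion (g u)) Y))
          (fun _ => (1 : ℝ)) A ≤ if ¬ Disjoint S (W.biUnion (g u)) then 1 else 0 := by
        intro u _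
        by_cases hd : Disjoint S (W.biUnion (g u))
        · rw [if_neg (not_not.2 hd)]
          refine le_of_eq (Set.indicator_of_notMem ?_ _)
          rintro ⟨_, _, A', h3, h4⟩
          exact h4 (hS' A' fun z hz => h3 z (Finset.disjoint_left.1 hd hz))
        · rw [if_pos hd]
          exact Set.indicator_le_self' (fun _ _ => zero_le_one) A
      refine (Finset.sum_le_sum h2).trans ?_
      rw [← Finset.sum_filter, Finset.sum_const, nsmul_eq_mul, mul_one]
      have h3 : (U.filter (fun u => ¬ Disjoint S (W.biUnion (g u)))).card ≤ S.card := by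
        refine card_bad (g := fun u => W.biUnion (g u)) fun u hu u' hu' hne => ?_
        rw [Finset.disjoint_biUnion_left]
        intro w hw
        rw [Finset.disjoint_biUnion_right]
        intro w' hw'
        exact hsep u hu w hw u' hu' w' hw' fun h => hne (Prod.mk.inj h).1
      have h4 : (U.filter (fun u => ¬ Disjoint S (W.biUnion (g u)))).card ≤ 2 * c := h3.trans hS
      exact_mod_cast h4
    · have h2 : ∀ u ∈ U, Set.indicator (C ∩ (Y ∩ piv (W.biUnion (g u)) Y))
          (fun _ => (1 : ℝ)) A = 0 := fun u _ =>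
        Set.indicator_of_notMem (fun h => hA ⟨h.1, h.2.1⟩) _
      rw [Finset.sum_congr rfl h2, Finset.sum_const_zero]
      exact mul_nonneg (by positivity) (Set.indicator_nonneg (fun _ _ => zero_le_one) _)
  obtain ⟨u, hu, h2⟩ : ∃ u ∈ U, U.card * (indep p).real (C ∩ (Y ∩ piv (W.biUnion (g u)) Y)) ≤
      (2 * c : ℝ) * (indep p).real C := by
    by_contra hcon
    push Not at hcon
    have h3 : ∑ u ∈ U, (2 * c : ℝ) * (indep p).real C <
        ∑ u ∈ U, U.card * (indep p).real (C ∩ (Y ∩ piv (W.biUnion (g u)) Y)) :=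
      Finset.sum_lt_sum_of_nonempty hU0 hcon
    rw [Finset.sum_const, nsmul_eq_mul, ← Finset.mul_sum] at h3
    exact absurd (mul_le_mul_of_nonneg_left h1 (Nat.cast_nonneg U.card)) (not_le.2 h3)
  have hsepu : ∀ w ∈ W, ∀ w' ∈ W, w ≠ w' → Disjoint (g u w) (g u w') :=
    fun w hw w' hw' hne => hsep u hu w hw u hu w' hw' fun h => hne (Prod.mk.inj h).2
  -- oracles without witnesses
  set N0 : Set Oracle := {A | ∀ w ∈ W, A ∉ wit (g u w) t} with hN0
  have hN0d : DepO (W.biUnion (g u)) N0 := by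
    intro A A' h hA w hw hcon
    refine hA w hw (wit_dep (g u w) t A' A (fun z hz => (h z ?_).symm) hcon)
    exact Finset.mem_biUnion.2 ⟨w, hw, hz⟩
  have hN0m := hN0d.measurable
  have e1 : (indep p).real C / 2 ≤ (indep p).real (C ∩ N0) := by
    have h1 : C ⊆ (C ∩ N0) ∪ ⋃ w ∈ W, (C ∩ wit (g u w) t) := by
      intro A hA
      by_cases h : A ∈ N0
      · exact Or.inl ⟨hA, h⟩
      · rw [hN0, Set.mem_ofPred_eq] at h
        push Not at h
        obtain ⟨w, hw, h2⟩ := h
        exact Or.inr (Set.mem_iUnion₂.2 ⟨w, hw, hA, h2⟩)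
    have h2 := (measureReal_mono (μ := indep p) h1).trans (measureReal_union_le _ _)
    have h3 : (indep p).real (⋃ w ∈ W, (C ∩ wit (g u w) t)) ≤
        (indep p).real C * (W.card * π) := by
      refine (measureReal_biUnion_finset_le _ _).trans ?_
      rw [Finset.sum_congr rfl (g := fun _ => (indep p).real C * π) fun w hw => by
        rw [real_match p hC t (g u w) (hE u hu w hw), hπ u hu w hw], Finset.sum_const,
        nsmul_eq_mul]
      linarith
    have h4 : (indep p).real C * (W.card * π) ≤ (indep p).real C * (1 / 2) :=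
      mul_le_mul_of_nonneg_left hμ2 hC0
    linarith
  -- the two-witness neighbours
  set Zs : Oracle → Finset (Finset (List Bool)) := fun A => (W.powersetCard 2).filter
      (fun s => setT (s.biUnion (g u)) t A ∈ Y) with hZs
  set Xb : Set Oracle := (C ∩ N0) ∩ (Yᶜ ∩ {A | W.card ^ 2 < 64 * m ^ 2 * (Zs A).card}) with hXb
  have hXbd : DepO (E ∪ (W.biUnion (g u)) ∪ F') Xb := by
    intro A A' h hA
    have hY2 : ∀ s : Finset (List Bool), (setT (s.biUnion (g u)) t A ∈ Y ↔ setT (s.biUnion (g u)) t A' ∈ Y) := by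
      intro s
      have h5 : ∀ z ∈ F', setT (s.biUnion (g u)) t A z = setT (s.biUnion (g u)) t A' z := by
        intro z hz
        unfold setT
        split_ifs
        · rfl
        · exact h z (Finset.mem_union_right _ hz)
      exact ⟨hvio _ _ h5, hvio _ _ fun z hz => (h5 z hz).symm⟩
    have hZ2 : Zs A = Zs A' := by
      rw [hZs]
      exact Finset.filter_congr fun s _ => hY2 s
    refine ⟨⟨hC A A' (fun z hz => h z (Finset.mem_union_left _ (Finset.mem_union_left _ hz)))
      hA.1.1, hN0d A A' (fun z hz => h z (Finset.mem_union_left _ (Finset.mem_union_right _ hz)))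
      hA.1.2⟩, dep_compl hvio A A' (fun z hz => h z (Finset.mem_union_right _ hz)) hA.2.1, ?_⟩
    rw [Set.mem_ofPred_eq, ← hZ2]
    exact hA.2.2
  have hXbm := hXbd.measurable
  have hex2 := exact p hC (hvio.inter (piv_dep (G := W.biUnion (g u)) hvio)) (W := W)
    (g := g u) (t := t) (π := π) hsepu (hE u hu) (hπ u hu) (k := 2) (S := W.powersetCard 2)
    (fun s hs => Finset.mem_powersetCard.1 hs)
  have hcnt : ((W.card : ℝ) ^ 2 / (64 * m ^ 2)) * (indep p).real Xb ≤
      ∑ s ∈ W.powersetCard 2, (indep p).real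
        (C ∩ pl W (g u) t (Y ∩ piv (W.biUnion (g u)) Y) s) := by
    refine count_real (indep p) _ _ (fun s hs => ?_) hXbm _ ?_
    · exact hCm.inter (pl_dep hsepu (hvio.inter (piv_dep (G := W.biUnion (g u)) hvio))
        (Finset.mem_powersetCard.1 hs).1).measurable
    · rintro A ⟨⟨hAC, hAN⟩, hAY, hAZ⟩
      rw [Set.mem_ofPred_eq] at hAZ
      have h3 : ∀ s ∈ Zs A, Set.indicator (C ∩ pl W (g u) t (Y ∩ piv (W.biUnion (g u)) Y) s)
          (fun _ => (1 : ℝ)) A = 1 := by
        intro s hs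
        rw [hZs, Finset.mem_filter] at hs
        apply Set.indicator_of_mem
        refine ⟨hAC, ⟨hs.2, A, fun z hz => ?_, hAY⟩, fun w hw _ => hAN w hw⟩
        unfold setT
        rw [if_neg fun h => hz (Finset.biUnion_subset_biUnion_of_subset_left _
          (Finset.mem_powersetCard.1 hs.1).1 h)]
      have h4 : ((Zs A).card : ℝ) ≤ ∑ s ∈ W.powersetCard 2,
          Set.indicator (C ∩ pl W (g u) t (Y ∩ piv (W.biUnion (g u)) Y) s)
            (fun _ => (1 : ℝ)) A := by
        have h5 : ((Zs A).card : ℝ) = ∑ s ∈ Zs A,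
            Set.indicator (C ∩ pl W (g u) t (Y ∩ piv (W.biUnion (g u)) Y) s)
              (fun _ => (1 : ℝ)) A := by
          rw [Finset.sum_congr rfl h3, Finset.sum_const, nsmul_eq_mul, mul_one]
        rw [h5]
        exact Finset.sum_le_sum_of_subset_of_nonneg (Finset.filter_subset _ _)
          fun s _ _ => Set.indicator_nonneg (fun _ _ => zero_le_one) _
      refine le_trans ?_ h4
      have hm' : (0 : ℝ) < 64 * (m : ℝ) ^ 2 := by positivity
      rw [div_le_iff₀ hm']
      have h6 : (W.card : ℝ) ^ 2 < 64 * (m : ℝ) ^ 2 * ((Zs A).card : ℝ) := by exact_mod_cast hAZ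
      linarith
  have hXb1 : (indep p).real Xb ≤ (indep p).real C / 16 := by
    have hm' : (0 : ℝ) < (m : ℝ) ^ 2 := by positivity
    have h3 := mul_le_mul_of_nonneg_right hcnt (show 0 ≤ π ^ 2 by positivity)
    have h4 := h3.trans hex2
    have h5 : (1 / 16 : ℝ) ≤ (W.card * π) ^ 2 := by nlinarith
    have hX0 : (0 : ℝ) ≤ (indep p).real Xb := measureReal_nonneg
    have h6 : (1 / (1024 * m ^ 2) : ℝ) * (indep p).real Xb ≤
        (indep p).real (C ∩ (Y ∩ piv (W.biUnion (g u)) Y)) := by
      refine le_trans ?_ h4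
      have h7 : (W.card : ℝ) ^ 2 / (64 * m ^ 2) * (indep p).real Xb * π ^ 2 =
          (W.card * π) ^ 2 / (64 * m ^ 2) * (indep p).real Xb := by ring
      rw [h7]
      refine mul_le_mul_of_nonneg_right ?_ hX0
      have h8 : (1 / (1024 * m ^ 2) : ℝ) = (1 / 16) / (64 * m ^ 2) := by
        field_simp
        norm_num
      rw [h8]
      exact div_le_div_of_nonneg_right h5 (by positivity)
    have h9 : (2 ^ 15 * c * m ^ 2 : ℝ) ≤ U.card := by exact_mod_cast hJ
    have hUpos : (0 : ℝ) < U.card := by exact_mod_cast hU0.card_pos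
    -- combine
    have h10 : (indep p).real Xb ≤ 1024 * m ^ 2 *
        (indep p).real (C ∩ (Y ∩ piv (W.biUnion (g u)) Y)) := by
      have h11 := mul_le_mul_of_nonneg_left h6 (show (0 : ℝ) ≤ 1024 * m ^ 2 by positivity)
      have h12 : (1024 * m ^ 2 : ℝ) * (1 / (1024 * m ^ 2) * (indep p).real Xb) =
          (indep p).real Xb := by
        field_simp
      rwa [h12] at h11
    have h13 : (U.card : ℝ) * (indep p).real Xb ≤ U.card * ((indep p).real C / 16) := by
      calc (U.card : ℝ) * (indep p).real Xb ≤ U.card * (1024 * m ^ 2 *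
            (indep p).real (C ∩ (Y ∩ piv (W.biUnion (g u)) Y))) :=
            mul_le_mul_of_nonneg_left h10 hUpos.le
        _ = 1024 * m ^ 2 * (U.card *
            (indep p).real (C ∩ (Y ∩ piv (W.biUnion (g u)) Y))) := by ring
        _ ≤ 1024 * m ^ 2 * ((2 * c : ℝ) * (indep p).real C) :=
            mul_le_mul_of_nonneg_left h2 (by positivity)
        _ = (2 ^ 15 * c * m ^ 2) * ((indep p).real C / 16) := by ring
        _ ≤ U.card * ((indep p).real C / 16) :=
            mul_le_mul_of_nonneg_right h9 (by positivity)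
    exact le_of_mul_le_mul_left h13 hUpos
  -- the good oracles
  set X : Set Oracle := ((C ∩ N0) ∩ Gd) \ Xb with hX
  have hXm : MeasurableSet X := ((hCm.inter hN0m).inter hGm).diff hXbm
  have hXlow : (indep p).real C / 2 - (indep p).real (C \ Gd) - (indep p).real C / 16 ≤
      (indep p).real X := by
    have h3 : C ∩ N0 ⊆ (X ∪ (C \ Gd)) ∪ Xb := by
      rintro A ⟨h4, h5⟩
      by_cases h6 : A ∈ Xb
      · exact Or.inr h6
      by_cases h7 : A ∈ Gd
      · exact Or.inl (Or.inl ⟨⟨⟨h4, h5⟩, h7⟩, h6⟩)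
      · exact Or.inl (Or.inr ⟨h4, h7⟩)
    have h4 := (measureReal_mono (μ := indep p) h3).trans (measureReal_union_le _ _)
    have h5 := measureReal_union_le (μ := indep p) X (C \ Gd)
    linarith
  have hex1 := exact p hC (dep_compl hgood) (W := W) (g := g u) (t := t) (π := π) hsepu
    (hE u hu) (hπ u hu) (k := 1) (S := W.powersetCard 1)
    (fun s hs => Finset.mem_powersetCard.1 hs)
  have hcnt1 : ((W.card : ℝ) / 2) * (indep p).real X ≤
      ∑ s ∈ W.powersetCard 1, (indep p).real (C ∩ pl W (g u) t Gdᶜ s) := by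
    refine count_real (indep p) _ _ (fun s hs => ?_) hXm _ ?_
    · exact hCm.inter (pl_dep hsepu (dep_compl hgood)
        (Finset.mem_powersetCard.1 hs).1).measurable
    · rintro A ⟨⟨⟨hAC, hAN⟩, hAG⟩, hAX⟩
      have hZ : 64 * m ^ 2 * (Zs A).card ≤ W.card ^ 2 := by
        by_contra hcon
        push Not at hcon
        exact hAX ⟨⟨hAC, hAN⟩, hAG.1, hcon⟩
      have h3 : 2 * (W.filter (fun w => setT (g u w) t A ∈ Gd)).card ≤ W.card := by
        convert comb (A := A) hu hsepu hB hD (hacc u hu) hm hAG hAN (by convert hZ) hW hW2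
      rw [Finset.powersetCard_one, Finset.sum_map]
      set bad := W.filter (fun w => ¬ setT (g u w) t A ∈ Gd) with hbad
      have h4 : ∀ w ∈ bad, Set.indicator (C ∩ pl W (g u) t Gdᶜ {w}) (fun _ => (1 : ℝ)) A = 1 := by
        intro w hw
        rw [hbad, Finset.mem_filter] at hw
        apply Set.indicator_of_mem
        refine ⟨hAC, ?_, fun w' hw' _ => hAN w' hw'⟩
        rw [Finset.singleton_biUnion]
        exact hw.2
      have h5 : (bad.card : ℝ) ≤ ∑ w ∈ W, Set.indicator (C ∩ pl W (g u) t Gdᶜ {w})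
          (fun _ => (1 : ℝ)) A := by
        have h6 : (bad.card : ℝ) = ∑ w ∈ bad, Set.indicator (C ∩ pl W (g u) t Gdᶜ {w})
            (fun _ => (1 : ℝ)) A := by
          rw [Finset.sum_congr rfl h4, Finset.sum_const, nsmul_eq_mul, mul_one]
        rw [h6]
        exact Finset.sum_le_sum_of_subset_of_nonneg (Finset.filter_subset _ _)
          fun w _ _ => Set.indicator_nonneg (fun _ _ => zero_le_one) _
      refine le_trans ?_ h5
      have h7 : (W.filter (fun w => setT (g u w) t A ∈ Gd)).card + bad.card = W.card := by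
        rw [hbad]
        exact Finset.card_filter_add_card_filter_not _
      have h8 : W.card ≤ 2 * bad.card := by omega
      have h9 : (W.card : ℝ) ≤ 2 * bad.card := by exact_mod_cast h8
      linarith
  have h3 := mul_le_mul_of_nonneg_right hcnt1 (show 0 ≤ π ^ 1 by positivity)
  have h4 := h3.trans hex1
  have hX0 : (0 : ℝ) ≤ (indep p).real X := measureReal_nonneg
  have h5 : (1 / 8 : ℝ) * (indep p).real X ≤ (indep p).real (C \ Gd) := by
    have h6 : C ∩ Gdᶜ = C \ Gd := rfl
    rw [h6] at h4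
    refine le_trans ?_ h4
    have h7 : (W.card : ℝ) / 2 * (indep p).real X * π ^ 1 =
        (W.card * π) / 2 * (indep p).real X := by ring
    rw [h7]
    refine mul_le_mul_of_nonneg_right ?_ hX0
    linarith
  have h6 : (0 : ℝ) ≤ (indep p).real (C \ Gd) := measureReal_nonneg
  linarith

end Pool.Agent.TH680.HP
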