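import Pool.Agent.TH680.HP.Level
import Pool.Agent.TH680.OR.Law

/-! The algorithms ask few questions. -/

set_option autoImplicit false

namespace Pool.Agent.TH680.HP

open Pool.Agent.NPC Pool.Agent.H620R2.Gauge Pool.Agent.H591R3.PHG MeasureTheory ProbabilityTheory
  Finset Pool.Agent.W900.IE Pool.Agent.W900.PS Pool.Agent.H622R2 Pool.Agent.W900
open Pool.Agent.TH680.OD (join sfx rr length_sfx disj_blk len_blk rr_nonneg)
open Pool.Agent.TH680.SE (wit wit_dep setT card_strs KK nn nn_le le_nn KK_le mu_le le_mu prod_ber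
  small_of_two sqrt_big)
open Pool.Agent.TH680.OR (out_loc out_dep inst2 inst2_mem inst2_le fnd poly_le_sqrt)

/-- the set in `NP` given by the algorithm `M` and the polynomial `p` -/
def Mem (M : Alg) (p : Polynomial ℕ) (O : Oracle) (y : List Bool) : Prop :=
  ∃ w : List Bool, w.length ≤ p.eval y.length ∧ M.out O (pairBits w y) = some [true]

/-- the length of the inputs -/
def il (p : Polynomial ℕ) (ℓ : ℕ) : ℕ := 2 * p.eval ℓ + 1 + ℓ

theorem il_ge {p : Polynomial ℕ} {ℓ : ℕ} {w y : List Bool} (hy : y.length ≤ ℓ)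
    (hw : w.length ≤ p.eval y.length) : (pairBits w y).length ≤ il p ℓ := by
  unfold il
  rw [length_pairBits]
  have := eval_mono p hy
  omega

theorem cert_mem (M : Alg) (p : Polynomial ℕ) (Q : Oracle) {ℓ : ℕ} {y : List Bool}
    (hy : y.length ≤ ℓ) : CertP (M.p.eval (il p ℓ)) (fun A => Mem M p (join Q A) y) := by
  rintro A ⟨w, hw, h⟩
  obtain ⟨S, hS, hS'⟩ := out_loc M Q A (pairBits w y)
  exact ⟨S, hS.trans (eval_mono _ (il_ge hy hw)), fun A' hA' => ⟨w, hw, by rw [hS' A' hA', h]⟩⟩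

theorem dep_mem (M : Alg) (p : Polynomial ℕ) (Q : Oracle) {ℓ : ℕ} {y : List Bool}
    (hy : y.length ≤ ℓ) {A A' : Oracle}
    (h : ∀ z : List Bool, z.length ≤ (IE.qb M).eval (il p ℓ) → A z = A' z) :
    Mem M p (join Q A) y ↔ Mem M p (join Q A') y := by
  unfold Mem
  refine exists_congr fun w => and_congr_right fun hw => ?_
  rw [out_dep M Q A A' _ fun z hz => h z (hz.trans (eval_mono _ (il_ge hy hw)))]

theorem run_loc (M : Alg) (Q A T : Oracle) (x : List Bool) : ∃ SA ST : Finset (List Bool),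
    SA.card ≤ M.p.eval x.length ∧ ST.card ≤ M.p.eval x.length ∧
      ∀ A' T' : Oracle, (∀ z ∈ SA, A' z = A z) → (∀ y ∈ ST, T' y = T y) →
        M.out (join (join Q A') T') x = M.out (join (join Q A) T) x := by
  classical
  obtain ⟨qb, hqb⟩ := Alg.out_local M
  obtain ⟨S, hS, _, hSA⟩ := hqb (join (join Q A) T) x
  refine ⟨S.image (fun q => q.tail.tail), S.image List.tail, Finset.card_image_le.trans hS,
    Finset.card_image_le.trans hS, fun A' T' h h' => ?_⟩
  rw [hSA]
  intro q hq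
  rcases q with _ | ⟨b, q⟩
  · rfl
  · cases b with
    | true => exact h' q (Finset.mem_image.2 ⟨_, hq, rfl⟩)
    | false =>
      rcases q with _ | ⟨b, z⟩
      · rfl
      · cases b with
        | false => rfl
        | true => exact h z (Finset.mem_image.2 ⟨_, hq, rfl⟩)

theorem run_dep (M : Alg) (Q A A' T T' : Oracle) (x : List Bool)
    (h : ∀ z : List Bool, z.length ≤ (IE.qb M).eval x.length → A z = A' z)
    (hT : ∀ z : List Bool, z.length ≤ (IE.qb M).eval x.length → T z = T' z) :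
    M.out (join (join Q A) T) x = M.out (join (join Q A') T') x := by
  obtain ⟨S, _, hS, hSA⟩ := (Alg.out_local M).choose_spec (join (join Q A') T') x
  apply hSA
  intro y hy
  have h1 := hS _ hy
  change y.length ≤ (IE.qb M).eval x.length at h1
  rcases y with _ | ⟨b, y⟩
  · rfl
  · rw [List.length_cons] at h1
    cases b with
    | true => exact hT y (by omega)
    | false =>
      rcases y with _ | ⟨b, z⟩
      · rfl
      · rw [List.length_cons] at h1
        cases b with
        | false => rfl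
        | true => exact h z (by omega)

/-- acceptance of the instance of the cone `u` -/
def acc (M : Alg) (Q : Oracle) (n N K : ℕ) (A T : Oracle) (u : List Bool) : Prop :=
  M.out (join (join Q A) T) (inst2 false u n N K) = some [true]

/-- a finite set of strings as an oracle -/
def ofL (l : List (List Bool)) : Oracle := fun y => decide (y ∈ l)

/-- the bound for the questions -/
noncomputable def lq (M : Alg) (t₀ N : ℕ) : ℕ := t₀ + (IE.qb M).eval (7 * N + 7)

/-- the good oracles -/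
noncomputable def GG (M₁ M₂ M : Alg) (p₁ p₂ : Polynomial ℕ) (Q : Oracle) (b : Bool) (t₀ : ℕ)
    (l₀ : List (List Bool)) (h n N K : ℕ) : Set Oracle :=
  Good (fun A y => Mem M₁ p₁ (join Q A) y) (fun A y => Mem M₂ p₂ (join Q A) y)
    {y | y.length ≤ lq M t₀ N} {y | y.length ≤ t₀} (ofL l₀) (DT.strs h) (DT.strs n)
    (fun u w => OD.blk N K (u ++ w)) (fun _ => !b) (acc M Q (h + n) N K)

variable {M₁ M₂ M : Alg} {p₁ p₂ : Polynomial ℕ} {Q : Oracle} {b : Bool} {t₀ : ℕ}
  {l₀ : List (List Bool)} {h n N K : ℕ}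

theorem blk_sep (h n N K : ℕ) : ∀ u ∈ DT.strs h, ∀ w ∈ DT.strs n, ∀ u' ∈ DT.strs h,
    ∀ w' ∈ DT.strs n, (u, w) ≠ (u', w') →
      Disjoint (OD.blk N K (u ++ w)) (OD.blk N K (u' ++ w')) := by
  intro u hu w hw u' hu' w' hw' hne
  rw [DT.mem_strs] at hu hw hu' hw'
  refine disj_blk (by rw [List.length_append, List.length_append, hu, hw, hu', hw']) fun he => ?_
  apply hne
  have := List.append_inj he (by rw [hu, hu'])
  rw [this.1, this.2]

/-- the bound for everything -/
noncomputable def RB (M₁ M₂ M : Alg) (p₁ p₂ : Polynomial ℕ) (t₀ N : ℕ) : ℕ :=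
  (IE.qb M₁).eval (il p₁ (lq M t₀ N)) + (IE.qb M₂).eval (il p₂ (lq M t₀ N)) + lq M t₀ N + N

theorem dep_vio (F : Finset (List Bool)) (hF : ∀ z : List Bool,
    z.length ≤ RB M₁ M₂ M p₁ p₂ t₀ N → z ∈ F) :
    DepO F (Vio (fun A y => Mem M₁ p₁ (join Q A) y) (fun A y => Mem M₂ p₂ (join Q A) y)
      {y | y.length ≤ lq M t₀ N}) := by
  rintro A A' hAA ⟨y, hy, h1, h2⟩
  refine ⟨y, hy, (dep_mem M₁ p₁ Q hy fun z hz => hAA z (hF z ?_)).1 h1,
    (dep_mem M₂ p₂ Q hy fun z hz => hAA z (hF z ?_)).1 h2⟩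
  · unfold RB
    omega
  · unfold RB
    omega

theorem dep_GG (hn : h + n ≤ N) (hK : K ≤ N + 1) (F : Finset (List Bool)) (hF : ∀ z : List Bool,
    z.length ≤ RB M₁ M₂ M p₁ p₂ t₀ N → z ∈ F) :
    DepO F (GG M₁ M₂ M p₁ p₂ Q b t₀ l₀ h n N K) := by
  rintro A A' hAA ⟨h1, h2, h3⟩
  have hm1 : ∀ y : List Bool, y.length ≤ lq M t₀ N →
      (Mem M₁ p₁ (join Q A) y ↔ Mem M₁ p₁ (join Q A') y) := fun y hy =>
    dep_mem M₁ p₁ Q hy fun z hz => hAA z (hF z (by unfold RB; omega))
  have hm2 : ∀ y : List Bool, y.length ≤ lq M t₀ N →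
      (Mem M₂ p₂ (join Q A) y ↔ Mem M₂ p₂ (join Q A') y) := fun y hy =>
    dep_mem M₂ p₂ Q hy fun z hz => hAA z (hF z (by unfold RB; omega))
  refine ⟨fun h4 => h1 ?_, fun y hy => ?_, fun u hu T hT hS => ?_⟩
  · obtain ⟨y, hy, h5, h6⟩ := h4
    exact ⟨y, hy, (hm1 y hy).2 h5, (hm2 y hy).2 h6⟩
  · have hy' : y.length ≤ lq M t₀ N := le_trans hy (by unfold lq; omega)
    have h4 := h2 y hy
    simp only at h4 ⊢
    rw [← hm1 y hy', ← hm2 y hy']
    exact h4
  · have h4 : Sp (fun A y => Mem M₁ p₁ (join Q A) y) (fun A y => Mem M₂ p₂ (join Q A) y)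
        {y | y.length ≤ lq M t₀ N} A T := by
      intro y hy
      have h5 := hS y hy
      simp only at h5 ⊢
      rw [hm1 y hy, hm2 y hy]
      exact h5
    have h5 := h3 u hu T hT h4
    have h6 : acc M Q (h + n) N K A' T u ↔ acc M Q (h + n) N K A T u := by
      unfold acc
      rw [run_dep M Q A' A T T _ (fun z hz => (hAA z (hF z ?_)).symm) fun _ _ => rfl]
      have h7 := inst2_le false hu (Nat.le_add_right h n) hn hK
      have h8 := hz.trans (eval_mono (IE.qb M) h7)
      unfold RB lq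
      omega
    rw [h6, h5]
    refine exists_congr fun w => and_congr_right fun hw => ?_
    have h7 : ∀ z ∈ OD.blk N K (u ++ w), A z = A' z := fun z hz => hAA z (hF z (by
      rw [len_blk (by rw [List.length_append, DT.mem_strs.1 hu, DT.mem_strs.1 hw]; exact hn) hz]
      unfold RB
      omega))
    exact ⟨wit_dep _ _ A A' h7, wit_dep _ _ A' A fun z hz => (h7 z hz).symm⟩

/-- the instances -/
theorem inst_iff {A : Oracle} {u : List Bool} (hu : u ∈ DT.strs h) (Q : Oracle) (b : Bool) :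
    inst2 false u (h + n) N K ∈ fnd b (join Q A) ↔
      ∃ w ∈ DT.strs n, A ∈ wit (OD.blk N K (u ++ w)) (fun _ => !b) := by
  rw [inst2_mem]
  rw [DT.mem_strs] at hu
  constructor
  · rintro ⟨w, h1, h2, h3⟩
    have h4 : w.take h = u := by
      rw [hu] at h2
      exact h2.2 rfl
    have h5 : u ++ w.drop h = w := by
      rw [← h4]
      exact List.take_append_drop h w
    refine ⟨w.drop h, DT.mem_strs.2 (by rw [List.length_drop, h1]; omega), ?_⟩
    rw [h5]
    intro z hz
    unfold OD.blk at hz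
    rw [Finset.mem_image] at hz
    obtain ⟨i, hi, rfl⟩ := hz
    rw [h1]
    exact h3 i (Finset.mem_range.1 hi)
  · rintro ⟨w, hw, h1⟩
    rw [DT.mem_strs] at hw
    refine ⟨u ++ w, by rw [List.length_append, hu, hw], ?_, fun i hi => ?_⟩
    · rw [List.take_left]
      simp
    · refine h1 _ ?_
      unfold OD.blk
      rw [Finset.mem_image]
      exact ⟨i, Finset.mem_range.2 hi, by rw [List.length_append, hu, hw]⟩

end Pool.Agent.TH680.HP
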