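import Pool.Agent.TH680.HP.Key

/-! The construction of a separator in stages. -/

set_option autoImplicit false

namespace Pool.Agent.TH680.HP

open Pool.Agent.NPC Pool.Agent.H620R2.Gauge Pool.Agent.H591R3.PHG MeasureTheory ProbabilityTheory
  Finset Pool.Agent.W900.IE Pool.Agent.W900.PS Pool.Agent.H622R2 Pool.Agent.W900
open Pool.Agent.TH680.OD (join sfx rr length_sfx disj_blk len_blk rr_nonneg)
open Pool.Agent.TH680.SE (wit nn nn_le KK KK_le)
open Pool.Agent.TH680.OR (inst2 inst2_le fnd isNP_fnd)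

variable {M₁ M₂ : Alg} {p₁ p₂ : Polynomial ℕ} {Q A : Oracle} {b : Bool} {q : ℕ → unitInterval}

/-- `T` separates the two sets -/
def Sep (M₁ M₂ : Alg) (p₁ p₂ : Polynomial ℕ) (O T : Oracle) : Prop :=
  ∀ y : List Bool, (Mem M₁ p₁ O y → T y = true) ∧ (Mem M₂ p₂ O y → T y = false)

/-- the reduction is right -/
def Right (M : Alg) (b : Bool) (O T : Oracle) (x : List Bool) : Prop :=
  M.out (join O T) x = some [true] ↔ x ∈ fnd b O

theorem exists_list (t : ℕ) (S : Oracle) : ∃ S₀ : List (List Bool),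
    ∀ q : List Bool, q.length ≤ t → ofL S₀ q = S q := by
  classical
  refine ⟨(((Finset.range (t + 1)).biUnion DT.strs).filter (fun q => S q = true)).toList,
    fun q hq => ?_⟩
  unfold ofL
  rw [Bool.eq_iff_iff, decide_eq_true_iff, Finset.mem_toList, Finset.mem_filter]
  exact ⟨fun h => h.2, fun h => ⟨Finset.mem_biUnion.2 ⟨q.length, Finset.mem_range.2 (by omega),
    DT.mem_strs.2 rfl⟩, h⟩⟩

theorem step (hd : ∀ y : List Bool, ¬ (Mem M₁ p₁ (join Q A) y ∧ Mem M₂ p₂ (join Q A) y))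
    (hA : ∀ (M : Alg) (t₀ : ℕ) (l₀ : List (List Bool)), ∃ N,
      hh (jP M₁ M₂ M p₁ p₂ t₀) N + nn q N ≤ N ∧ A ∉ G1 M₁ M₂ M p₁ p₂ Q b t₀ l₀ q N)
    (M : Alg) (t : ℕ) {T : Oracle} (hT : Sep M₁ M₂ p₁ p₂ (join Q A) T) :
    ∃ (t' : ℕ) (T' : Oracle), t < t' ∧ Sep M₁ M₂ p₁ p₂ (join Q A) T' ∧
      (∀ y : List Bool, y.length ≤ t → T' y = T y) ∧
      ∃ x : List Bool, ∀ T'' : Oracle, (∀ y : List Bool, y.length ≤ t' → T'' y = T' y) →
        ¬ Right M b (join Q A) T'' x := by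
  classical
  obtain ⟨l₀, hl₀⟩ := exists_list t T
  obtain ⟨N, hN, hn⟩ := hA M t l₀
  unfold G1 GG Good at hn
  rw [Set.mem_ofPred_eq, not_and, not_and] at hn
  have h1 := hn (fun h => by
    obtain ⟨y, _, h2, h3⟩ := h
    exact hd y ⟨h2, h3⟩) (fun y hy => by
    rw [hl₀ y hy]
    exact hT y)
  push Not at h1
  obtain ⟨u, hu, T₁, h2, h3, h4⟩ := h1
  set x := inst2 false u (hh (jP M₁ M₂ M p₁ p₂ t) N + nn q N) N (KK q N) with hx
  have hxl : x.length ≤ 7 * N + 7 := inst2_le false hu (Nat.le_add_right _ _) hN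
    ((KK_le q N).trans (Nat.succ_le_succ (Nat.sqrt_le_self N)))
  have hlt : t ≤ lq M t N := Nat.le_add_right _ _
  refine ⟨max (t + 1) (lq M t N),
    fun y => if y.length ≤ lq M t N then T₁ y else decide (Mem M₁ p₁ (join Q A) y),
    lt_of_lt_of_le (Nat.lt_succ_self t) (le_max_left _ _), ?_, ?_, x, ?_⟩
  · intro y
    by_cases hy : y.length ≤ lq M t N
    · simp only [if_pos hy]
      exact h3 y hy
    · simp only [if_neg hy]
      exact ⟨fun h => decide_eq_true h, fun h => decide_eq_false fun h' => hd y ⟨h', h⟩⟩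
  · intro y hy
    simp only [if_pos (hy.trans hlt)]
    rw [h2 y hy, hl₀ y hy]
  · intro T'' hT'' h5
    have h6 : M.out (join (join Q A) T'') x = M.out (join (join Q A) T₁) x := by
      refine run_dep M Q A A T'' T₁ x (fun _ _ => rfl) fun y hy => ?_
      have h7 : y.length ≤ lq M t N := by
        have := eval_mono (IE.qb M) hxl
        unfold lq
        omega
      rw [hT'' y (h7.trans (le_max_right _ _))]
      simp only [if_pos h7]
    unfold Right at h5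
    rw [h6] at h5
    have h8 : (acc M Q (hh (jP M₁ M₂ M p₁ p₂ t) N + nn q N) N (KK q N) A T₁ u ↔
        ∃ w ∈ DT.strs (nn q N), A ∈ wit (OD.blk N (KK q N) (u ++ w)) (fun _ => !b)) := by
      unfold acc
      rw [h5, inst_iff hu Q b]
    rcases h4 with ⟨h9, h10⟩ | ⟨h9, h10⟩
    · obtain ⟨w, hw, h11⟩ := h8.1 h9
      exact h10 w hw h11
    · exact h9 (h8.2 h10)

/-- **The separator.** -/
theorem exists_sep (hd : ∀ y : List Bool, ¬ (Mem M₁ p₁ (join Q A) y ∧ Mem M₂ p₂ (join Q A) y))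
    (hA : ∀ (M : Alg) (t₀ : ℕ) (l₀ : List (List Bool)), ∃ N,
      hh (jP M₁ M₂ M p₁ p₂ t₀) N + nn q N ≤ N ∧ A ∉ G1 M₁ M₂ M p₁ p₂ Q b t₀ l₀ q N) :
    ∃ T : Oracle, Sep M₁ M₂ p₁ p₂ (join Q A) T ∧
      ∀ M : Alg, ∃ x : List Bool, ¬ Right M b (join Q A) T x := by
  classical
  have : Nonempty Alg := ⟨M₁⟩
  obtain ⟨e, he⟩ := exists_surjective_nat Alg
  have hstep : ∀ (k : ℕ) (s : {s : ℕ × Oracle // Sep M₁ M₂ p₁ p₂ (join Q A) s.2}),
      ∃ s' : {s : ℕ × Oracle // Sep M₁ M₂ p₁ p₂ (join Q A) s.2}, s.1.1 < s'.1.1 ∧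
        (∀ y : List Bool, y.length ≤ s.1.1 → s'.1.2 y = s.1.2 y) ∧
        ∃ x : List Bool, ∀ T'' : Oracle,
          (∀ y : List Bool, y.length ≤ s'.1.1 → T'' y = s'.1.2 y) →
            ¬ Right (e k) b (join Q A) T'' x := by
    rintro k ⟨⟨t, S⟩, hS⟩
    obtain ⟨t', S', h1, h2, h3, h4⟩ := step hd hA (e k) t hS
    exact ⟨⟨(t', S'), h2⟩, h1, h3, h4⟩
  choose nx hnx using hstep
  have hinit : Sep M₁ M₂ p₁ p₂ (join Q A) (fun y => decide (Mem M₁ p₁ (join Q A) y)) := fun y =>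
    ⟨fun h => decide_eq_true h, fun h => decide_eq_false fun h' => hd y ⟨h', h⟩⟩
  obtain ⟨st, hst0, hst⟩ : ∃ st : ℕ → {s : ℕ × Oracle // Sep M₁ M₂ p₁ p₂ (join Q A) s.2},
      st 0 = ⟨(0, _), hinit⟩ ∧ ∀ k, st (k + 1) = nx k (st k) :=
    ⟨fun k => Nat.rec ⟨(0, _), hinit⟩ (fun k s => nx k s) k, rfl, fun k => rfl⟩
  have hlt : ∀ k, (st k).1.1 < (st (k + 1)).1.1 := fun k => by
    rw [hst]
    exact (hnx k (st k)).1
  have hge : ∀ k, k ≤ (st k).1.1 := by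
    intro k
    induction k with
    | zero => exact Nat.zero_le _
    | succ k ih =>
      have := hlt k
      omega
  have hmono : ∀ k j, (st k).1.1 ≤ (st (k + j)).1.1 := by
    intro k j
    induction j with
    | zero => exact le_rfl
    | succ j ih =>
      have := hlt (k + j)
      rw [← Nat.add_assoc]
      omega
  have hag : ∀ (k j : ℕ) (y : List Bool), y.length ≤ (st k).1.1 →
      (st (k + j)).1.2 y = (st k).1.2 y := by
    intro k j y hy
    induction j with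
    | zero => rfl
    | succ j ih =>
      rw [← Nat.add_assoc, hst, (hnx (k + j) (st (k + j))).2.1 y (hy.trans (hmono k j)), ih]
  obtain ⟨S, hS⟩ : ∃ S : Oracle, ∀ y, S y = (st y.length).1.2 y := ⟨_, fun _ => rfl⟩
  have hSk : ∀ (k : ℕ) (y : List Bool), y.length ≤ (st k).1.1 → S y = (st k).1.2 y := by
    intro k y hy
    rw [hS]
    rcases Nat.le_total k y.length with h | h
    · obtain ⟨j, hj⟩ := Nat.exists_eq_add_of_le h
      rw [hj]
      exact hag k j y hy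
    · obtain ⟨j, hj⟩ := Nat.exists_eq_add_of_le h
      have h1 := hag y.length j y (hge _)
      rw [← hj] at h1
      exact h1.symm
  refine ⟨S, fun y => ?_, fun M => ?_⟩
  · rw [hS]
    exact (st y.length).2 y
  · obtain ⟨k, hk⟩ := he M
    obtain ⟨x, hx⟩ := (hnx k (st k)).2.2
    refine ⟨x, ?_⟩
    have h1 := hx S (fun y hy => by
      rw [← hst k] at hy ⊢
      exact hSk (k + 1) y hy)
    rw [hk] at h1
    exact h1

/-- **No hard pairs.** -/
theorem ae_nohard {q : ℕ → unitInterval}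
    (h : ¬ ∃ c : ℕ, ∀ n, W900.IE.dev (DT.pq q) n ≤ (n : ℝ) ^ c + c) (Q : Oracle) :
    ∀ᵐ A ∂(indep (DT.pq q)), ∃ L, IsNP (join Q A) L ∧
      ∀ B D : Set (List Bool), IsNP (join Q A) B → IsNP (join Q A) D → Disjoint B D →
        ∃ T : Oracle, (∀ y ∈ B, T y = true) ∧ (∀ y ∈ D, T y = false) ∧
          ¬ IsP (join (join Q A) T) L := by
  obtain ⟨b, hb⟩ := DT.exists_many h
  have := EL.countable_poly
  have h1 : ∀ᵐ A ∂(indep (DT.pq q)), ∀ (M₁ M₂ : Alg) (p₁ p₂ : Polynomial ℕ) (M : Alg) (t₀ : ℕ)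
      (l₀ : List (List Bool)), ∃ N, hh (jP M₁ M₂ M p₁ p₂ t₀) N + nn q N ≤ N ∧
        A ∉ G1 M₁ M₂ M p₁ p₂ Q b t₀ l₀ q N := by
    simp only [ae_all_iff]
    intro M₁ M₂ p₁ p₂ M t₀ l₀
    exact ae_GG hb M₁ M₂ M p₁ p₂ Q t₀ l₀
  filter_upwards [h1] with A hA
  refine ⟨fnd b (join Q A), isNP_fnd b _, ?_⟩
  rintro B D ⟨V₁, p₁, ⟨M₁, hM₁⟩, hB⟩ ⟨V₂, p₂, ⟨M₂, hM₂⟩, hD⟩ hdis
  have hB' : ∀ y, y ∈ B ↔ Mem M₁ p₁ (join Q A) y := by
    intro y
    rw [hB y]
    unfold Mem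
    refine exists_congr fun w => and_congr_right fun _ => ?_
    rw [hM₁, Option.some_inj]
  have hD' : ∀ y, y ∈ D ↔ Mem M₂ p₂ (join Q A) y := by
    intro y
    rw [hD y]
    unfold Mem
    refine exists_congr fun w => and_congr_right fun _ => ?_
    rw [hM₂, Option.some_inj]
  obtain ⟨T, hT, hT'⟩ := exists_sep (M₁ := M₁) (M₂ := M₂) (p₁ := p₁) (p₂ := p₂) (Q := Q)
    (A := A) (b := b) (q := q) (fun y hy => Set.disjoint_left.1 hdis ((hB' y).2 hy.1)
      ((hD' y).2 hy.2)) (fun M t₀ l₀ => hA M₁ M₂ p₁ p₂ M t₀ l₀)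
  refine ⟨T, fun y hy => (hT y).1 ((hB' y).1 hy), fun y hy => (hT y).2 ((hD' y).1 hy), ?_⟩
  rintro ⟨V, ⟨M, hM⟩, hV⟩
  obtain ⟨x, hx⟩ := hT' M
  apply hx
  unfold Right
  rw [hM, Option.some_inj]
  exact (hV x).symm

end Pool.Agent.TH680.HP
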